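import Pool.Agent.TH409.RG.Fold

/-!
# Trees of completely joined triples: definitions, extension of rigid parts, small degrees
-/

set_option autoImplicit false

open Finset

namespace Pool.Agent.TH409.RG

open Pool.Agent.H789R5 Pool.Agent.H283R2.DR Pool.Agent.TH349.Rig

variable {V : Type}

/-- `U` contains `k` disjoint triples `tr i`, each vertex `u` of `U` outside the root triple `tr 0`
has a home `tr (h u)`, the vertices of a triple `tr i`, `i > 0`, have the same home, a triple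
with a smaller index. -/
structure TS (U : Finset V) (k : ℕ) (tr : ℕ → Finset V) (h : V → ℕ) : Prop where
  pos : 0 < k
  card : ∀ i < k, (tr i).card = 3
  sub : ∀ i < k, tr i ⊆ U
  disj : ∀ i < k, ∀ j < k, i ≠ j → ∀ a ∈ tr i, a ∉ tr j
  hlt : ∀ u ∈ U, u ∉ tr 0 → h u < k
  par : ∀ i < k, 0 < i → ∀ u ∈ tr i, h u < i
  same : ∀ i < k, 0 < i → ∀ u ∈ tr i, ∀ u' ∈ tr i, h u = h u'

/-- the edges of the tree: from `a` to its home -/
def TA (U : Finset V) (tr : ℕ → Finset V) (h : V → ℕ) (a b : V) : Prop :=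
  a ∈ U ∧ a ∉ tr 0 ∧ b ∈ tr (h a)

/-- `G` contains the edges of the tree and three more edges -/
structure Hyp (G : SimpleGraph V) (U : Finset V) (k : ℕ) (tr : ℕ → Finset V) (h : V → ℕ)
    (F : Finset (Sym2 V)) : Prop where
  ts : TS U k tr h
  adj : ∀ a b, TA U tr h a b → G.Adj a b
  F3 : F.card = 3
  FE : ∀ a b, s(a, b) ∈ F → a ∈ U ∧ b ∈ U ∧ G.Adj a b ∧ ¬ TA U tr h a b

theorem TS.noTA {U : Finset V} {k : ℕ} {tr : ℕ → Finset V} {h : V → ℕ} (H : TS U k tr h) {i : ℕ}
    (hi : i < k) {x y : V} (hx : x ∈ tr i) (hy : y ∈ tr i) : ¬ TA U tr h x y := by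
  rintro ⟨_, h0, h1⟩
  have hi0 : 0 < i := by
    rcases Nat.eq_zero_or_pos i with rfl | h
    · exact absurd hx h0
    · exact h
  have h2 := H.par i hi hi0 x hx
  exact H.disj i hi (h x) (h2.trans hi) h2.ne' y hy h1

section ext

variable [Fintype V]

open Classical in
theorem ext_down {p : V → Fin 3 → ℝ} (hp : MG p) {G : SimpleGraph V} {U : Finset V} {k : ℕ}
    {tr : ℕ → Finset V} {h : V → ℕ} (H : TS U k tr h) (hadj : ∀ a b, TA U tr h a b → G.Adj a b) :
    ∀ i < k, ∀ U0 : Finset V, U0 ⊆ U → tr i ⊆ U0 → ri p G U0 →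
      ∃ U1 : Finset V, U1 ⊆ U ∧ tr 0 ⊆ U1 ∧ ri p G U1 := by
  intro i
  induction i using Nat.strong_induction_on with
  | _ i ih =>
    intro hi U0 hU0 hti hr
    rcases Nat.eq_zero_or_pos i with rfl | h0
    · exact ⟨U0, hU0, hti, hr⟩
    · obtain ⟨u, hu⟩ : (tr i).Nonempty := by
        rw [← card_pos, H.card i hi]; norm_num
      have hlt := H.par i hi h0 u hu
      refine ih (h u) hlt (hlt.trans hi) (tr (h u) ∪ U0) ?_ subset_union_left ?_
      · exact union_subset (H.sub _ (hlt.trans hi)) hU0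
      · refine ri_addall hp hti (H.card i hi).ge _ ?_ hr
        intro b hb _ z hz
        refine (hadj z b ⟨H.sub i hi hz, ?_, ?_⟩).symm
        · exact H.disj i hi 0 H.pos h0.ne' z hz
        · rwa [H.same i hi h0 z hz u hu]

open Classical in
/-- a rigid part which contains a triple grows to the whole -/
theorem ext_all {p : V → Fin 3 → ℝ} (hp : MG p) {G : SimpleGraph V} {U : Finset V} {k : ℕ}
    {tr : ℕ → Finset V} {h : V → ℕ} (H : TS U k tr h) (hadj : ∀ a b, TA U tr h a b → G.Adj a b)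
    {i : ℕ} (hi : i < k) {U0 : Finset V} (hU0 : U0 ⊆ U) (hti : tr i ⊆ U0) (hr : ri p G U0) :
    ri p G U := by
  obtain ⟨U1, hU1, h01, hr1⟩ := ext_down hp H hadj i hi U0 hU0 hti hr
  have h2 : ∀ m, 0 < m → m ≤ k → ∃ U2 : Finset V, U2 ⊆ U ∧ (∀ j < m, tr j ⊆ U2) ∧ ri p G U2 := by
    intro m hm
    induction m, hm using Nat.le_induction with
    | base =>
      intro _
      refine ⟨U1, hU1, fun j hj => ?_, hr1⟩
      obtain rfl : j = 0 := by omega
      exact h01
    | succ m hm ih =>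
      intro hmk
      obtain ⟨U2, hU2, h3, hr2⟩ := ih (by omega)
      have hmk' : m < k := by omega
      obtain ⟨u, hu⟩ : (tr m).Nonempty := by
        rw [← card_pos, H.card m hmk']; norm_num
      have hm0 : 0 < m := hm
      have hlt := H.par m hmk' hm0 u hu
      refine ⟨tr m ∪ U2, union_subset (H.sub m hmk') hU2, ?_, ?_⟩
      · intro j hj
        rcases Nat.lt_succ_iff_lt_or_eq.1 hj with hj | rfl
        · exact (h3 j hj).trans subset_union_right
        · exact subset_union_left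
      · refine ri_addall hp (h3 (h u) hlt) (H.card _ (hlt.trans hmk')).ge _ ?_ hr2
        intro b hb _ z hz
        refine hadj b z ⟨H.sub m hmk' hb, H.disj m hmk' 0 H.pos hm0.ne' b hb, ?_⟩
        rwa [H.same m hmk' hm0 b hb u hu]
  obtain ⟨U2, hU2, h3, hr2⟩ := h2 k H.pos le_rfl
  have h4 : ∀ B : Finset V, B ⊆ U → ri p G (B ∪ U2) := by
    intro B
    induction B using Finset.induction_on with
    | empty => intro _; simpa using hr2
    | insert b B hb ih =>
      intro hB
      have ih' := ih ((subset_insert _ _).trans hB)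
      rw [insert_union]
      by_cases hbU : b ∈ B ∪ U2
      · rw [insert_eq_of_mem hbU]
        exact ih'
      · have hbU' : b ∈ U := hB (mem_insert_self _ _)
        have hb0 : b ∉ tr 0 := fun h' => hbU (mem_union_right _ (h3 0 H.pos h'))
        have hlt := H.hlt b hbU' hb0
        refine ri_ext0 hp hbU (T := tr (h b)) ((h3 _ hlt).trans subset_union_right)
          (H.card _ hlt) ?_ ih'
        intro z hz
        exact hadj b z ⟨hbU', hb0, hz⟩
  have h5 := h4 U (Subset.refl _)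
  rwa [union_eq_left.2 hU2] at h5

end ext

/-- the statement for smaller structures -/
def Res [Fintype V] (p : V → Fin 3 → ℝ) (N : ℕ) : Prop :=
  ∀ (G : SimpleGraph V) (U : Finset V) (k : ℕ) (tr : ℕ → Finset V) (h : V → ℕ)
    (F : Finset (Sym2 V)), Hyp G U k tr h F → U.card + k < N → ri p G U

open Classical in
theorem inner_pair {P : Finset V} (hP : P.card = 3) {F : Finset (Sym2 V)} (hF : F.card ≤ 2) :
    ∃ a ∈ P, ∃ b ∈ P, a ≠ b ∧ s(a, b) ∉ F := by
  obtain ⟨a, b, c, hab, hac, hbc, rfl⟩ := card_eq_three.1 hP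
  by_contra hcon
  push Not at hcon
  have h1 := hcon a (by simp) b (by simp) hab
  have h2 := hcon a (by simp) c (by simp) hac
  have h3 := hcon b (by simp) c (by simp) hbc
  have h4 : ({s(a, b), s(a, c), s(b, c)} : Finset (Sym2 V)) ⊆ F := by
    intro e he
    simp only [mem_insert, mem_singleton] at he
    rcases he with rfl | rfl | rfl <;> assumption
  have h5 := card_le_card h4
  rw [card_eq_three.2 ⟨s(a, b), s(a, c), s(b, c), ?_, ?_, ?_, rfl⟩] at h5
  · omega
  · rw [Ne, Sym2.eq_iff]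
    rintro (⟨_, h⟩ | ⟨h, _⟩)
    · exact hbc h
    · exact hac h
  · rw [Ne, Sym2.eq_iff]
    rintro (⟨h, _⟩ | ⟨h, _⟩)
    · exact hab h
    · exact hac h
  · rw [Ne, Sym2.eq_iff]
    rintro (⟨h, _⟩ | ⟨h, _⟩)
    · exact hab h
    · exact hac h

theorem Hyp.ne {G : SimpleGraph V} {U : Finset V} {k : ℕ} {tr : ℕ → Finset V} {h : V → ℕ}
    {F : Finset (Sym2 V)} (H : Hyp G U k tr h F) {a b : V} (hab : s(a, b) ∈ F) : a ≠ b :=
  (H.FE a b hab).2.2.1.ne

open Classical in
theorem TS.erase {U : Finset V} {k : ℕ} {tr : ℕ → Finset V} {h : V → ℕ} (H : TS U k tr h) {v : V}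
    (hatt : ∀ i < k, v ∉ tr i) : TS (U.erase v) k tr h where
  pos := H.pos
  card := H.card
  sub i hi _ ha := mem_erase.2 ⟨fun h => hatt i hi (h ▸ ha), H.sub i hi ha⟩
  disj := H.disj
  hlt u hu := H.hlt u (mem_of_mem_erase hu)
  par := H.par
  same := H.same

section AB

variable [Fintype V]

open Classical in
/-- a vertex outside the triples with at most one additional edge -/
theorem stepAB {p : V → Fin 3 → ℝ} (hp : MG p) {G : SimpleGraph V} {U : Finset V} {k : ℕ}
    {tr : ℕ → Finset V} {h : V → ℕ} {F : Finset (Sym2 V)} (H : Hyp G U k tr h F)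
    (IH : Res p (U.card + k)) {v : V} (hv : v ∈ U) (hatt : ∀ i < k, v ∉ tr i)
    (hF : (F.filter (v ∈ ·)).card ≤ 1) : ri p G U := by
  have h0 : v ∉ tr 0 := hatt 0 H.ts.pos
  have hlt := H.ts.hlt v hv h0
  have hP3 := H.ts.card _ hlt
  have hadjv : ∀ z ∈ tr (h v), G.Adj v z := fun z hz => H.adj v z ⟨hv, h0, hz⟩
  have hTS := H.ts.erase hatt
  have hcard : (U.erase v).card + k < U.card + k := by
    have := card_erase_lt_of_mem hv
    omega
  have hvU : v ∉ U.erase v := notMem_erase v U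
  rcases Nat.lt_or_ge 0 (F.filter (v ∈ ·)).card with h1 | h1
  · have h1' : (F.filter (v ∈ ·)).card = 1 := by omega
    obtain ⟨e, he⟩ := card_eq_one.1 h1'
    have he' : e ∈ F.filter (v ∈ ·) := by rw [he]; exact mem_singleton_self _
    rw [mem_filter] at he'
    obtain ⟨w, rfl⟩ := Sym2.mem_iff_exists.1 he'.2
    have hw := H.FE v w he'.1
    have hwP : w ∉ tr (h v) := fun hc => hw.2.2.2 ⟨hv, h0, hc⟩
    have hcardE : (F.erase s(v, w)).card = 2 := by rw [card_erase_of_mem he'.1, H.F3]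
    obtain ⟨a, ha, b, hb, hab, hnot⟩ := inner_pair hP3 hcardE.le
    have hav : a ≠ v := fun hc => hatt _ hlt (hc ▸ ha)
    have hbv : b ≠ v := fun hc => hatt _ hlt (hc ▸ hb)
    have hnotv : ∀ x y, s(x, y) ∈ F.erase s(v, w) → x ≠ v := by
      rintro x y hxy rfl
      have : s(x, y) ∈ F.filter (x ∈ ·) :=
        mem_filter.2 ⟨mem_of_mem_erase hxy, Sym2.mem_mk_left _ _⟩
      rw [he, mem_singleton] at this
      exact (mem_erase.1 hxy).1 this
    have key : ri p (G ⊔ SimpleGraph.edge a b) (U.erase v) := by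
      refine IH _ _ _ _ _ (insert s(a, b) (F.erase s(v, w))) ⟨hTS, ?_, ?_, ?_⟩ hcard
      · intro x y hxy
        exact Or.inl (H.adj x y ⟨mem_of_mem_erase hxy.1, hxy.2⟩)
      · rw [card_insert_of_notMem hnot, hcardE]
      · intro x y hxy
        rw [mem_insert] at hxy
        rcases hxy with hxy | hxy
        · have hx : x ∈ tr (h v) ∧ y ∈ tr (h v) ∧ x ≠ y := by
            rw [Sym2.eq_iff] at hxy
            rcases hxy with ⟨rfl, rfl⟩ | ⟨rfl, rfl⟩
            · exact ⟨ha, hb, hab⟩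
            · exact ⟨hb, ha, hab.symm⟩
          refine ⟨hTS.sub _ hlt hx.1, hTS.sub _ hlt hx.2.1, ?_, hTS.noTA hlt hx.1 hx.2.1⟩
          rw [SimpleGraph.sup_adj, SimpleGraph.edge_adj]
          refine Or.inr ⟨?_, hx.2.2⟩
          rw [Sym2.eq_iff] at hxy
          exact hxy
        · have h2 := H.FE x y (mem_of_mem_erase hxy)
          refine ⟨mem_erase.2 ⟨hnotv x y hxy, h2.1⟩, mem_erase.2 ⟨hnotv y x ?_, h2.2.1⟩,
            Or.inl h2.2.2.1, ?_⟩
          · rw [show s(y, x) = s(x, y) from Sym2.eq_swap]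
            exact hxy
          · exact fun hc => h2.2.2.2 ⟨mem_of_mem_erase hc.1, hc.2⟩
    have h3 := ri_ext1 hp hvU (N := insert w (tr (h v))) (x := a) (y := b) ?_ ?_ ?_
      (mem_insert_of_mem ha) (mem_insert_of_mem hb) hab key
    · rwa [insert_erase hv] at h3
    · intro z hz
      rw [mem_insert] at hz
      rcases hz with rfl | hz
      · exact mem_erase.2 ⟨hw.2.2.1.ne', hw.2.1⟩
      · exact hTS.sub _ hlt hz
    · rw [card_insert_of_notMem hwP, hP3]
    · intro z hz
      rw [mem_insert] at hz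
      rcases hz with rfl | hz
      · exact hw.2.2.1
      · exact hadjv z hz
  · have h1' : F.filter (v ∈ ·) = ∅ := card_eq_zero.1 (by omega)
    have hnotv : ∀ x y, s(x, y) ∈ F → x ≠ v := by
      rintro x y hxy rfl
      have : s(x, y) ∈ F.filter (x ∈ ·) := mem_filter.2 ⟨hxy, Sym2.mem_mk_left _ _⟩
      rw [h1'] at this
      exact absurd this (notMem_empty _)
    have key : ri p G (U.erase v) := by
      refine IH _ _ _ _ _ F ⟨hTS, ?_, H.F3, ?_⟩ hcard
      · intro x y hxy
        exact H.adj x y ⟨mem_of_mem_erase hxy.1, hxy.2⟩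
      · intro x y hxy
        have h2 := H.FE x y hxy
        refine ⟨mem_erase.2 ⟨hnotv x y hxy, h2.1⟩, mem_erase.2 ⟨hnotv y x ?_, h2.2.1⟩,
          h2.2.2.1, ?_⟩
        · rw [show s(y, x) = s(x, y) from Sym2.eq_swap]
          exact hxy
        · exact fun hc => h2.2.2.2 ⟨mem_of_mem_erase hc.1, hc.2⟩
    have h3 := ri_ext0 hp hvU (T := tr (h v)) (hTS.sub _ hlt) hP3 hadjv key
    rwa [insert_erase hv] at h3

end AB

end Pool.Agent.TH409.RG
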