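import Pool.Agent.TH409.RG.Two

/-!
# Removing the last triple if one vertex is attached to it
-/

set_option autoImplicit false

open Finset

namespace Pool.Agent.TH409.RG

open Pool.Agent.H789R5 Pool.Agent.H283R2.DR Pool.Agent.TH349.Rig

variable {V : Type} [Fintype V]

open Classical in
/-- vertices joined to four vertices `N` replace edges inside `N` -/
theorem ri_dissolve {p : V → Fin 3 → ℝ} (hp : MG p) {U N : Finset V} (hN : N ⊆ U)
    (hN4 : N.card = 4) (P : Finset V) :
    ∀ (G : SimpleGraph V) (Ω : Finset (Sym2 V)), Disjoint P U → (∀ q ∈ P, ∀ z ∈ N, G.Adj q z) →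
      Ω.card ≤ P.card → (∀ e ∈ Ω, ∃ a ∈ N, ∃ b ∈ N, a ≠ b ∧ e = s(a, b)) →
      ri p (G ⊔ SimpleGraph.fromEdgeSet (Ω : Set (Sym2 V))) U → ri p G (P ∪ U) := by
  induction P using Finset.induction_on with
  | empty =>
    intro G Ω _ _ hc _ hr
    have h0 : Ω = ∅ := card_eq_zero.1 (by simpa using hc)
    subst h0
    simpa using hr
  | insert q P hq ih =>
    intro G Ω hd hadj hc hΩ hr
    rw [disjoint_insert_left] at hd
    have hqU : q ∉ P ∪ U := by
      rw [mem_union]
      rintro (h | h)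
      · exact hq h
      · exact hd.1 h
    rw [insert_union]
    rcases Ω.eq_empty_or_nonempty with rfl | ⟨e, he⟩
    · have h1 := ih G ∅ hd.2 (fun q' hq' => hadj q' (mem_insert_of_mem hq')) (by simp) (by simp) hr
      obtain ⟨T, hT, hT3⟩ := exists_subset_card_eq (s := N) (n := 3) (by omega)
      exact ri_ext0 hp hqU (T := T) ((hT.trans hN).trans subset_union_right) hT3
        (fun z hz => hadj q (mem_insert_self _ _) z (hT hz)) h1
    · obtain ⟨a, ha, b, hb, hab, rfl⟩ := hΩ e he
      have h1 := ih (G ⊔ SimpleGraph.edge a b) (Ω.erase s(a, b)) hd.2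
        (fun q' hq' z hz => Or.inl (hadj q' (mem_insert_of_mem hq') z hz)) (by
          rw [card_erase_of_mem he]
          rw [card_insert_of_notMem hq] at hc
          omega) (fun e he' => hΩ e (mem_of_mem_erase he')) (by
          refine ri_mono ?_ hr
          intro x _ y _ hxy
          rw [SimpleGraph.sup_adj, SimpleGraph.fromEdgeSet_adj, mem_coe] at hxy
          rw [SimpleGraph.sup_adj, SimpleGraph.sup_adj, SimpleGraph.fromEdgeSet_adj, mem_coe]
          rcases hxy with hxy | ⟨hxy, hne⟩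
          · exact Or.inl (Or.inl hxy)
          · by_cases h2 : s(x, y) = s(a, b)
            · refine Or.inl (Or.inr ?_)
              rw [SimpleGraph.edge_adj]
              rw [Sym2.eq_iff] at h2
              exact ⟨h2, hne⟩
            · exact Or.inr ⟨mem_erase.2 ⟨h2, hxy⟩, hne⟩)
      exact ri_ext1 hp hqU (N := N) (hN.trans subset_union_right) hN4
        (fun z hz => hadj q (mem_insert_self _ _) z hz) ha hb hab h1

/-- the structure without the last triple, where `v` gets a new home -/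
theorem TS.drop [DecidableEq V] {U U' : Finset V} {k j : ℕ} {tr : ℕ → Finset V} {h : V → ℕ}
    {v : V} (H : TS U (k + 1) tr h) (hk : 0 < k) (hatt : ∀ i < k + 1, v ∉ tr i) (hj : j < k)
    (hU' : U' ⊆ U) (hsub : ∀ i < k, tr i ⊆ U')
    (hL : ∀ u ∈ U', u ∉ tr 0 → h u = k → u = v) :
    TS U' k tr (Function.update h v j) where
  pos := hk
  card i hi := H.card i (by omega)
  sub := hsub
  disj i hi j' hj' := H.disj i (by omega) j' (by omega)
  hlt u hu hu0 := by
    by_cases huv : u = v
    · rw [huv, Function.update_self]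
      exact hj
    · rw [Function.update_of_ne huv]
      have h1 := H.hlt u (hU' hu) hu0
      have h2 : h u ≠ k := fun hc => huv (hL u hu hu0 hc)
      omega
  par i hi hi0 u hu := by
    have huv : u ≠ v := fun hc => hatt i (by omega) (hc ▸ hu)
    rw [Function.update_of_ne huv]
    exact H.par i (by omega) hi0 u hu
  same i hi hi0 u hu u' hu' := by
    have huv : u ≠ v := fun hc => hatt i (by omega) (hc ▸ hu)
    have huv' : u' ≠ v := fun hc => hatt i (by omega) (hc ▸ hu')
    rw [Function.update_of_ne huv, Function.update_of_ne huv']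
    exact H.same i (by omega) hi0 u hu u' hu'

open Classical in
theorem stepDis {p : V → Fin 3 → ℝ} (hp : MG p) {G : SimpleGraph V} {U : Finset V} {k ρ : ℕ}
    {tr : ℕ → Finset V} {h : V → ℕ} {F : Finset (Sym2 V)} (H : Hyp G U (k + 1) tr h F)
    (IH : Res p (U.card + (k + 1))) (hρ : ρ < k) (hP : ∀ z ∈ tr k, h z = ρ)
    {v : V} (hv : v ∈ U) (hatt : ∀ i < k + 1, v ∉ tr i) (hhv : h v = k)
    (hL : ∀ u ∈ U, u ∉ tr 0 → h u = k → u = v)
    (hFP : ∀ q ∈ tr k, ∀ e ∈ F, q ∉ e) : ri p G U := by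
  have hρ' : ρ < k + 1 := by omega
  have hk1 : k < k + 1 := by omega
  have hP3 := H.ts.card k hk1
  have hR3 := H.ts.card ρ hρ'
  have hvR : v ∉ tr ρ := hatt ρ hρ'
  have hvP : v ∉ tr k := hatt k hk1
  set S : Finset (Sym2 V) := (tr ρ).image (fun r => s(v, r)) with hS
  have hS3 : S.card = 3 := by
    rw [hS, card_image_of_injOn, hR3]
    intro a _ b _ hab
    by_contra hne
    exact s_ne_left hne hab
  -- inner pairs of the home of the last triple
  obtain ⟨ra, rb, rc, hab, hac, hbc, hR⟩ := card_eq_three.1 hR3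
  set I : Finset (Sym2 V) := {s(ra, rb), s(ra, rc), s(rb, rc)} with hI
  have hI3 : I.card = 3 := by
    refine card_three (s_ne_left hbc) (s_ne (Or.inl hab) (Or.inl hac))
      (s_ne (Or.inl hab) (Or.inl hac))
  have hImem : ∀ e ∈ I, ∃ a ∈ tr ρ, ∃ b ∈ tr ρ, a ≠ b ∧ e = s(a, b) := by
    intro e he
    simp only [hI, mem_insert, mem_singleton] at he
    rw [hR]
    rcases he with rfl | rfl | rfl
    · exact ⟨ra, by simp, rb, by simp, hab, rfl⟩
    · exact ⟨ra, by simp, rc, by simp, hac, rfl⟩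
    · exact ⟨rb, by simp, rc, by simp, hbc, rfl⟩
  have hIS : Disjoint I S := by
    rw [disjoint_left]
    intro e he heS
    obtain ⟨a, ha, b, hb, _, rfl⟩ := hImem e he
    rw [hS, mem_image] at heS
    obtain ⟨r, _, hr⟩ := heS
    rw [Sym2.eq_iff] at hr
    rcases hr with ⟨h1, _⟩ | ⟨h1, _⟩
    · exact hvR (h1 ▸ ha)
    · exact hvR (h1 ▸ hb)
  have hc1 : (F ∩ S).card + (F ∩ I).card ≤ 3 := by
    rw [← card_union_of_disjoint, ← H.F3]
    · exact card_le_card (union_subset inter_subset_left inter_subset_left)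
    · exact (hIS.mono inter_subset_right inter_subset_right).symm
  have hc2 : (I \ F).card = 3 - (F ∩ I).card := by
    rw [card_sdiff, hI3]
  obtain ⟨J, hJ, hJc⟩ := exists_subset_card_eq (s := I \ F) (n := (F ∩ S).card) (by omega)
  have hJI : ∀ e ∈ J, e ∈ I ∧ e ∉ F := fun e he => mem_sdiff.1 (hJ he)
  set F' : Finset (Sym2 V) := (F \ S) ∪ J with hF'
  have hF'3 : F'.card = 3 := by
    rw [hF', card_union_of_disjoint, card_sdiff, hJc, H.F3]
    · have : (S ∩ F).card = (F ∩ S).card := by rw [inter_comm]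
      have h1 := card_le_card (inter_subset_left : F ∩ S ⊆ F)
      rw [H.F3] at h1
      omega
    · rw [disjoint_left]
      intro e he heJ
      exact (hJI e heJ).2 (mem_sdiff.1 he).1
  set Ω : Finset (Sym2 V) := (S \ F) ∪ J with hΩ
  have hΩ3 : Ω.card ≤ (tr k).card := by
    refine (card_union_le _ _).trans ?_
    rw [card_sdiff, hJc, hS3, hP3]
    have h1 := card_le_card (inter_subset_left : F ∩ S ⊆ F)
    rw [H.F3] at h1
    omega
  have hN : ∀ e ∈ Ω, ∃ a ∈ insert v (tr ρ), ∃ b ∈ insert v (tr ρ), a ≠ b ∧ e = s(a, b) := by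
    intro e he
    rw [hΩ, mem_union, mem_sdiff] at he
    rcases he with ⟨he, _⟩ | he
    · rw [hS, mem_image] at he
      obtain ⟨r, hr, rfl⟩ := he
      exact ⟨v, mem_insert_self _ _, r, mem_insert_of_mem hr, fun hc => hvR (hc ▸ hr), rfl⟩
    · obtain ⟨a, ha, b, hb, hne, rfl⟩ := hImem e (hJI e he).1
      exact ⟨a, mem_insert_of_mem ha, b, mem_insert_of_mem hb, hne, rfl⟩
  have hUP : ∀ a ∈ U \ tr k, a ∈ U ∧ a ∉ tr k := fun a ha => mem_sdiff.1 ha
  have hsub : ∀ i < k, tr i ⊆ U \ tr k := by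
    intro i hi a ha
    rw [mem_sdiff]
    exact ⟨H.ts.sub i (by omega) ha, H.ts.disj i (by omega) k hk1 (by omega) a ha⟩
  have hTS := H.ts.drop (U' := U \ tr k) (j := ρ) (by omega) hatt hρ sdiff_subset hsub
    (fun u hu => hL u (hUP u hu).1)
  have hcard : (U \ tr k).card + k < U.card + (k + 1) := by
    have := card_le_card (sdiff_subset : U \ tr k ⊆ U)
    omega
  have hvU' : v ∈ U \ tr k := mem_sdiff.2 ⟨hv, hvP⟩
  have hv0 : v ∉ tr 0 := hatt 0 (by omega)
  have hTA : ∀ a b, a ≠ v → TA (U \ tr k) tr (Function.update h v ρ) a b → TA U tr h a b := by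
    intro a b hav hc
    have h1 := hc.2.2
    rw [Function.update_of_ne hav] at h1
    exact ⟨(hUP a hc.1).1, hc.2.1, h1⟩
  have key : ri p (G ⊔ SimpleGraph.fromEdgeSet (Ω : Set (Sym2 V))) (U \ tr k) := by
    refine IH _ _ _ _ _ F' ⟨hTS, ?_, hF'3, ?_⟩ hcard
    · intro a b hc
      by_cases hav : a = v
      · subst hav
        have hb := hc.2.2
        rw [Function.update_self] at hb
        have hne : a ≠ b := fun hc => hvR (hc ▸ hb)
        by_cases hF1 : s(a, b) ∈ F
        · exact Or.inl (H.two hF1).2.2.1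
        · refine Or.inr ?_
          rw [SimpleGraph.fromEdgeSet_adj, mem_coe, hΩ, mem_union, mem_sdiff]
          exact ⟨Or.inl ⟨mem_image.2 ⟨b, hb, rfl⟩, hF1⟩, hne⟩
      · exact Or.inl (H.adj a b (hTA a b hav hc))
    · intro a b hab
      rw [hF', mem_union, mem_sdiff] at hab
      rcases hab with ⟨hab, habS⟩ | hab
      · have h1 := H.two hab
        refine ⟨mem_sdiff.2 ⟨h1.1, fun hc => hFP a hc _ hab (Sym2.mem_mk_left _ _)⟩,
          mem_sdiff.2 ⟨h1.2.1, fun hc => hFP b hc _ hab (Sym2.mem_mk_right _ _)⟩,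
          Or.inl h1.2.2.1, ?_⟩
        intro hc
        by_cases hav : a = v
        · subst hav
          have hb := hc.2.2
          rw [Function.update_self] at hb
          exact habS (mem_image.2 ⟨b, hb, rfl⟩)
        · exact h1.2.2.2.1 (hTA a b hav hc)
      · obtain ⟨a', ha', b', hb', hne, he⟩ := hImem _ (hJI _ hab).1
        have hab2 : a ∈ tr ρ ∧ b ∈ tr ρ ∧ a ≠ b := by
          rw [Sym2.eq_iff] at he
          rcases he with ⟨rfl, rfl⟩ | ⟨rfl, rfl⟩
          · exact ⟨ha', hb', hne⟩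
          · exact ⟨hb', ha', hne.symm⟩
        refine ⟨hsub ρ hρ hab2.1, hsub ρ hρ hab2.2.1, Or.inr ?_, hTS.noTA hρ hab2.1 hab2.2.1⟩
        rw [SimpleGraph.fromEdgeSet_adj, mem_coe, hΩ, mem_union]
        exact ⟨Or.inr hab, hab2.2.2⟩
  have h4 := ri_dissolve hp (U := U \ tr k) (N := insert v (tr ρ)) ?_ ?_ (tr k) G Ω ?_ ?_ hΩ3 hN key
  · rwa [union_sdiff_of_subset (H.ts.sub k hk1)] at h4
  · exact insert_subset hvU' (hsub ρ hρ)
  · rw [card_insert_of_notMem hvR, hR3]
  · exact disjoint_sdiff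
  · intro q hq z hz
    rw [mem_insert] at hz
    have hq0 : q ∉ tr 0 := H.ts.disj k hk1 0 (by omega) (by omega) q hq
    rcases hz with rfl | hz
    · exact (H.adj z q ⟨hv, hv0, by rwa [hhv]⟩).symm
    · exact H.adj q z ⟨H.ts.sub k hk1 hq, hq0, by rwa [hP q hq]⟩

end Pool.Agent.TH409.RG
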