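import Pool.Agent.TH409.RG.Main

/-!
# Families of triples, partitions into modules
-/

set_option autoImplicit false

open Finset

namespace Pool.Agent.TH409.RG

open Pool.Agent.H789R5 Pool.Agent.H283R2.DR Pool.Agent.TH349.Rig

theorem exists_enum {ι : Type} [Fintype ι] {J : SimpleGraph ι} (hJ : J.Connected) (m : ℕ)
    (hm : 0 < m) : m ≤ Fintype.card ι → ∃ f : ℕ → ι, (∀ i < m, ∀ j < m, f i = f j → i = j) ∧
      ∀ i < m, 0 < i → ∃ j < i, J.Adj (f i) (f j) := by
  classical
  induction m, hm using Nat.le_induction with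
  | base =>
    intro _
    obtain ⟨a⟩ := hJ.nonempty
    refine ⟨fun _ => a, fun i hi j hj _ => by omega, fun i hi hi0 => by omega⟩
  | succ m hm ih =>
    intro hmc
    obtain ⟨f, hf1, hf2⟩ := ih (by omega)
    have hm0 : 0 < m := hm
    set S : Finset ι := (range m).image f with hS
    have hSc : S.card < (univ : Finset ι).card := by
      have h1 : S.card ≤ m := card_image_le.trans (by rw [card_range])
      rw [card_univ]
      omega
    obtain ⟨b, -, hb⟩ := exists_mem_notMem_of_card_lt_card hSc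
    obtain ⟨w⟩ := hJ.preconnected (f 0) b
    obtain ⟨d, -, hd1, hd2⟩ := w.exists_boundary_dart (S : Set ι)
      (mem_coe.2 (mem_image.2 ⟨0, mem_range.2 hm0, rfl⟩)) (fun hc => hb (mem_coe.1 hc))
    obtain ⟨j0, hj0, hj0d⟩ := mem_image.1 (mem_coe.1 hd1)
    rw [mem_range] at hj0
    have hne : ∀ i < m, f i ≠ d.snd := fun i hi hc =>
      hd2 (mem_coe.2 (mem_image.2 ⟨i, mem_range.2 hi, hc⟩))
    refine ⟨Function.update f m d.snd, ?_, ?_⟩
    · intro i hi j hj hij
      by_cases him : i = m
      · by_cases hjm : j = m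
        · rw [him, hjm]
        · rw [him, Function.update_self, Function.update_of_ne hjm] at hij
          exact absurd hij.symm (hne j (by omega))
      · by_cases hjm : j = m
        · rw [hjm, Function.update_self, Function.update_of_ne him] at hij
          exact absurd hij (hne i (by omega))
        · rw [Function.update_of_ne him, Function.update_of_ne hjm] at hij
          exact hf1 i (by omega) j (by omega) hij
    · intro i hi hi0
      by_cases him : i = m
      · refine ⟨j0, by omega, ?_⟩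
        rw [him, Function.update_self, Function.update_of_ne (by omega), hj0d]
        exact d.adj.symm
      · obtain ⟨j, hj, hjadj⟩ := hf2 i (by omega) hi0
        refine ⟨j, hj, ?_⟩
        rw [Function.update_of_ne him, Function.update_of_ne (by omega)]
        exact hjadj

variable {V : Type} [Fintype V]

open Classical in
/-- the structure of a family of triples -/
theorem exists_TS {G : SimpleGraph V} {ι : Type} (t : ι → Finset V) (hcard : ∀ i, (t i).card = 3)
    (hdisj : ∀ i j, i ≠ j → Disjoint (t i) (t j))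
    (hconn : (SimpleGraph.fromRel fun i j => ∀ a ∈ t i, ∀ b ∈ t j, G.Adj a b).Connected)
    (hcov : ∀ v, (∀ i, v ∉ t i) → ∃ i, ∀ z ∈ t i, G.Adj v z) :
    ∃ (k : ℕ) (tr : ℕ → Finset V) (h : V → ℕ), TS univ k tr h ∧
      ∀ a b, TA univ tr h a b → G.Adj a b := by
  have hne : ∀ i, (t i).Nonempty := fun i => by rw [← card_pos, hcard i]; norm_num
  have hinj : Function.Injective t := by
    intro i j hij
    by_contra hc
    have h1 := hdisj i j hc
    rw [hij, disjoint_self_iff_empty] at h1
    exact (hne j).ne_empty h1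
  have : Finite ι := Finite.of_injective t hinj
  have : Fintype ι := Fintype.ofFinite ι
  have hpos : 0 < Fintype.card ι := by
    have := hconn.nonempty
    exact Fintype.card_pos
  obtain ⟨f, hf1, hf2⟩ := exists_enum hconn (Fintype.card ι) hpos le_rfl
  set k := Fintype.card ι with hk
  -- the enumeration is onto
  have hsurj : ∀ x : ι, ∃ i < k, f i = x := by
    intro x
    have h1 : ((range k).image f).card = k := by
      rw [card_image_of_injOn, card_range]
      intro i hi j hj hij
      exact hf1 i (mem_range.1 (mem_coe.1 hi)) j (mem_range.1 (mem_coe.1 hj)) hij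
    have h2 : (range k).image f = univ := eq_univ_of_card _ (by rw [h1])
    have h3 : x ∈ (range k).image f := by rw [h2]; exact mem_univ x
    obtain ⟨i, hi, hix⟩ := mem_image.1 h3
    exact ⟨i, mem_range.1 hi, hix⟩
  have hjoin : ∀ i j, (SimpleGraph.fromRel fun i j => ∀ a ∈ t i, ∀ b ∈ t j, G.Adj a b).Adj i j →
      ∀ a ∈ t i, ∀ b ∈ t j, G.Adj a b := by
    intro i j hij a ha b hb
    rw [SimpleGraph.fromRel_adj] at hij
    rcases hij.2 with h | h
    · exact h a ha b hb
    · exact (h b hb a ha).symm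
  have hpar : ∀ i, ∃ j, i < k → 0 < i → j < i ∧ ∀ a ∈ t (f i), ∀ b ∈ t (f j), G.Adj a b := by
    intro i
    by_cases hi : i < k ∧ 0 < i
    · obtain ⟨j, hj, hjadj⟩ := hf2 i hi.1 hi.2
      exact ⟨j, fun _ _ => ⟨hj, hjoin _ _ hjadj⟩⟩
    · exact ⟨0, fun h1 h2 => absurd ⟨h1, h2⟩ hi⟩
  choose π hπ using hpar
  have hidx : ∀ v, ∃ j, (∀ i < k, v ∈ t (f i) → j = π i) ∧
      ((∀ i < k, v ∉ t (f i)) → j < k ∧ ∀ z ∈ t (f j), G.Adj v z) := by
    intro v
    by_cases hv : ∃ i < k, v ∈ t (f i)
    · obtain ⟨i, hi, hvi⟩ := hv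
      refine ⟨π i, ?_, fun hc => absurd hvi (hc i hi)⟩
      intro i' hi' hvi'
      by_cases hii : f i = f i'
      · rw [hf1 i hi i' hi' hii]
      · exact absurd hvi' (disjoint_left.1 (hdisj _ _ hii) hvi)
    · push Not at hv
      obtain ⟨x, hx⟩ := hcov v (by
        intro x hx
        obtain ⟨i, hi, rfl⟩ := hsurj x
        exact hv i hi hx)
      obtain ⟨i, hi, rfl⟩ := hsurj x
      exact ⟨i, fun i' hi' hvi' => absurd hvi' (hv i' hi'), fun _ => ⟨hi, hx⟩⟩
  choose h hh1 hh2 using hidx
  refine ⟨k, fun i => t (f i), h, ⟨hpos, fun i _ => hcard _, fun i _ => subset_univ _, ?_, ?_, ?_,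
    ?_⟩, ?_⟩
  · intro i hi j hj hij a ha hb
    have h1 : f i ≠ f j := fun hc => hij (hf1 i hi j hj hc)
    exact disjoint_left.1 (hdisj _ _ h1) ha hb
  · intro u _ hu0
    by_cases hu : ∃ i < k, u ∈ t (f i)
    · obtain ⟨i, hi, hui⟩ := hu
      have hi0 : 0 < i := by
        rcases Nat.eq_zero_or_pos i with rfl | h
        · exact absurd hui hu0
        · exact h
      rw [hh1 u i hi hui]
      exact ((hπ i hi hi0).1).trans hi
    · push Not at hu
      exact (hh2 u hu).1
  · intro i hi hi0 u hu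
    rw [hh1 u i hi hu]
    exact (hπ i hi hi0).1
  · intro i hi hi0 u hu u' hu'
    rw [hh1 u i hi hu, hh1 u' i hi hu']
  · rintro a b ⟨_, ha0, hb⟩
    by_cases ha : ∃ i < k, a ∈ t (f i)
    · obtain ⟨i, hi, hai⟩ := ha
      have hi0 : 0 < i := by
        rcases Nat.eq_zero_or_pos i with rfl | h
        · exact absurd hai ha0
        · exact h
      simp only [hh1 a i hi hai] at hb
      exact (hπ i hi hi0).2 a hai b hb
    · push Not at ha
      exact (hh2 a ha).2 b hb

theorem rank_family {G : SimpleGraph V} {ι : Type} (t : ι → Finset V)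
    (hcard : ∀ i, (t i).card = 3) (hdisj : ∀ i j, i ≠ j → Disjoint (t i) (t j))
    (hconn : (SimpleGraph.fromRel fun i j => ∀ a ∈ t i, ∀ b ∈ t j, G.Adj a b).Connected)
    (hcov : ∀ v, (∀ i, v ∉ t i) → ∃ i, ∀ z ∈ t i, G.Adj v z) :
    genRank 3 G = min G.edgeSet.ncard (3 * Fintype.card V - 6) := by
  obtain ⟨k, tr, h, H, hadj⟩ := exists_TS t hcard hdisj hconn hcov
  exact rank_TS H hadj

theorem three_le_of_family {ι : Type} [Nonempty ι] (t : ι → Finset V)
    (hcard : ∀ i, (t i).card = 3) : 3 ≤ Fintype.card V := by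
  obtain ⟨i⟩ := ‹Nonempty ι›
  rw [← hcard i, ← card_univ]
  exact card_le_card (subset_univ _)

/-- rigidity, given the rank formula -/
theorem rigid_iff_of_rank {G : SimpleGraph V} (h3 : 3 ≤ Fintype.card V)
    (hr : genRank 3 G = min G.edgeSet.ncard (3 * Fintype.card V - 6)) :
    GenRigid 3 G ↔ 3 * Fintype.card V ≤ G.edgeSet.ncard + 6 := by
  obtain ⟨p, hp⟩ := exists_mg V 3
  have h0 := genRank_add hp G
  have h6 := six_le hp h3 G
  rw [genRigid_iff hp h3]
  omega

/-- partitions into modules with at least three vertices -/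
theorem rank_modules {G : SimpleGraph V} {ι : Type} (c : V → ι)
    (hc3 : ∀ v, 3 ≤ {w | c w = c v}.ncard)
    (hmod : ∀ v w v' w', c v = c v' → c w = c w' → c v ≠ c w → G.Adj v w → G.Adj v' w')
    (hconn : G.Connected) (h2 : ∃ v w, c v ≠ c w) :
    genRank 3 G = min G.edgeSet.ncard (3 * Fintype.card V - 6) := by
  classical
  have hex : ∀ i : Set.range c, ∃ T : Finset V, T.card = 3 ∧ ∀ v ∈ T, c v = i := by
    rintro ⟨_, v, rfl⟩
    have h1 := hc3 v
    rw [Set.ncard_eq_toFinset_card'] at h1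
    obtain ⟨T, hT, hT3⟩ := exists_subset_card_eq h1
    refine ⟨T, hT3, fun w hw => ?_⟩
    have := hT hw
    rwa [Set.mem_toFinset] at this
  choose t ht3 htc using hex
  have hjn : ∀ v w, c v ≠ c w → G.Adj v w → ∀ (i j : Set.range c), (i : ι) = c v → (j : ι) = c w →
      ∀ a ∈ t i, ∀ b ∈ t j, G.Adj a b := by
    intro v w hvw hadj i j hi hj a ha b hb
    exact hmod v w a b (by rw [htc i a ha, hi]) (by rw [htc j b hb, hj]) hvw hadj
  have hreach : ∀ v w, G.Reachable v w →
      (SimpleGraph.fromRel fun i j => ∀ a ∈ t i, ∀ b ∈ t j, G.Adj a b).Reachable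
        (⟨c v, v, rfl⟩ : Set.range c) ⟨c w, w, rfl⟩ := by
    rintro v w ⟨p⟩
    induction p with
    | nil => exact SimpleGraph.Reachable.refl _
    | @cons u v w hadj _ ih =>
      by_cases huv : c u = c v
      · have : (⟨c u, u, rfl⟩ : Set.range c) = ⟨c v, v, rfl⟩ := Subtype.ext huv
        rw [this]
        exact ih
      · refine SimpleGraph.Reachable.trans (SimpleGraph.Adj.reachable ?_) ih
        rw [SimpleGraph.fromRel_adj]
        exact ⟨fun h => huv (Subtype.ext_iff.1 h), Or.inl (hjn u v huv hadj _ _ rfl rfl)⟩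
  refine rank_family t ht3 ?_ ?_ ?_
  · intro i j hij
    rw [disjoint_left]
    intro a ha hb
    exact hij (Subtype.ext ((htc i a ha).symm.trans (htc j a hb)))
  · have : Nonempty (Set.range c) := by
      obtain ⟨v, _⟩ := h2
      exact ⟨⟨c v, v, rfl⟩⟩
    refine ⟨?_⟩
    rintro ⟨_, v, rfl⟩ ⟨_, w, rfl⟩
    exact hreach v w (hconn.preconnected v w)
  · intro v _
    obtain ⟨w, hw⟩ : ∃ w, c w ≠ c v := by
      obtain ⟨a, b, hab⟩ := h2
      by_cases h : c a = c v
      · exact ⟨b, fun hb => hab (h.trans hb.symm)⟩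
      · exact ⟨a, h⟩
    obtain ⟨p⟩ := hconn.preconnected v w
    obtain ⟨d, -, hd1, hd2⟩ := p.exists_boundary_dart {x | c x = c v} rfl hw
    have hd1' : c d.fst = c v := hd1
    have hd2' : c d.snd ≠ c v := hd2
    refine ⟨⟨c d.snd, d.snd, rfl⟩, fun z hz => ?_⟩
    exact hmod d.fst d.snd v z hd1' (htc _ z hz).symm (fun h => hd2' (h.symm.trans hd1')) d.adj

end Pool.Agent.TH409.RG
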