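import Pool.Agent.TH349.Rig.Count

/-!
# Splitting a vertex into two nonadjacent vertices with three common neighbours
-/

set_option autoImplicit false

open Finset Matrix

namespace Pool.Agent.TH409.RG

open Pool.Agent.H789R5 Pool.Agent.H283R2.DR Pool.Agent.TH349.Rig

variable {V : Type}

theorem eq_zero_of_orth {T : Type*} [Fintype T] {b : T → Fin 3 → ℝ} (hb : LinearIndependent ℝ b)
    (hT : Fintype.card T = 3) {w : Fin 3 → ℝ} (h : ∀ z, b z ⬝ᵥ w = 0) : w = 0 := by
  have hne : Nonempty T := by
    rw [← Fintype.card_pos_iff, hT]; norm_num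
  have h1 : Submodule.span ℝ (Set.range b) = ⊤ :=
    hb.span_eq_top_of_card_eq_finrank (by rw [hT, Module.finrank_fin_fun])
  have h2 : ∀ x : Fin 3 → ℝ, x ⬝ᵥ w = 0 := by
    intro x
    have hx : x ∈ Submodule.span ℝ (Set.range b) := by rw [h1]; trivial
    induction hx using Submodule.span_induction with
    | mem x hx =>
      obtain ⟨z, rfl⟩ := hx
      exact h z
    | zero => exact zero_dotProduct w
    | add x y _ _ hx hy => rw [add_dotProduct, hx, hy, add_zero]
    | smul c x _ hx => rw [smul_dotProduct, hx, smul_zero]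
  exact dotProduct_self_eq_zero.1 (h2 w)

variable [Fintype V]

open Classical in
/-- If `v` and `y` have three common neighbours and `G'` has at most the edges of `G`, where `v` is
identified with `y`, then rigidity of `G'` implies rigidity of `G`. -/
theorem ri_fold {p : V → Fin 3 → ℝ} (hp : MG p) {G G' : SimpleGraph V} {U T : Finset V} {v y : V}
    (hv : v ∉ U) (hy : y ∈ U) (hTU : T ⊆ U) (hT : T.card = 3) (hTv : ∀ z ∈ T, G.Adj v z)
    (hTy : ∀ z ∈ T, G.Adj y z)
    (hG' : ∀ a ∈ U, ∀ b ∈ U, G'.Adj a b →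
      G.Adj a b ∨ (a = y ∧ G.Adj v b) ∨ (b = y ∧ G.Adj v a))
    (hr : ri p G' U) : ri p G (insert v U) := by
  have hyv : y ≠ v := fun h => hv (h ▸ hy)
  set p' : V → Fin 3 → ℝ := Function.update p v (p y) with hp'
  have hpv : p' v = p y := Function.update_self _ _ _
  have hpn : ∀ a, a ≠ v → p' a = p a := fun a ha => Function.update_of_ne ha _ _
  have hpU : ∀ a ∈ U, p' a = p a := fun a ha => hpn a (fun h => hv (h ▸ ha))
  have key : mo (ins G (insert v U)) p' + 3 ≤ mo (ins G' U) p := by
    have hcard : Fintype.card (Fin 3) = 3 := Fintype.card_fin 3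
    have hq0 : ∀ q ∈ Mot (ins G (insert v U)) p', q v = q y := by
      intro q hq
      rw [mem_mot] at hq
      rw [← sub_eq_zero]
      have hyT : y ∉ T := fun h => (hTy y h).ne rfl
      refine eq_zero_of_orth (lin_of_pos hp hyT hT.le) (by rw [Fintype.card_coe, hT]) ?_
      rintro ⟨z, hz⟩
      have hzU := hTU hz
      have h1 := hq v z ⟨hTv z hz, mem_insert_self _ _, mem_insert_of_mem hzU⟩
      have h2 := hq y z ⟨hTy z hz, mem_insert_of_mem hy, mem_insert_of_mem hzU⟩
      rw [hpv, hpU z hzU] at h1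
      rw [hpU y hy, hpU z hzU] at h2
      show (p y - p z) ⬝ᵥ (q v - q y) = 0
      have : q v - q y = (q v - q z) - (q y - q z) := by abel
      rw [this, dotProduct_sub, h1, h2, sub_zero]
    let D : (V → Fin 3 → ℝ) →ₗ[ℝ] (Fin 3 → ℝ) :=
      (LinearMap.proj (R := ℝ) (φ := fun _ : V => Fin 3 → ℝ) v) -
        (LinearMap.proj (R := ℝ) (φ := fun _ : V => Fin 3 → ℝ) y)
    have hD : ∀ q i, D q i = q v i - q y i := fun q i => rfl
    have := dim_gain (Mot (ins G' U) p) (Mot (ins G (insert v U)) p')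
      (fun i : Fin 3 => (LinearMap.proj (R := ℝ) (φ := fun _ : Fin 3 => ℝ) i).comp D) ?_ ?_ ?_
    · rw [hcard] at this
      exact this
    · intro q hq
      have hvy := hq0 q hq
      rw [mem_mot] at hq ⊢
      rintro a b ⟨hab, ha, hb⟩
      rcases hG' a ha b hb hab with h | ⟨rfl, h⟩ | ⟨rfl, h⟩
      · have h1 := hq a b ⟨h, mem_insert_of_mem ha, mem_insert_of_mem hb⟩
        rwa [hpU a ha, hpU b hb] at h1
      · have h1 := hq v b ⟨h, mem_insert_self _ _, mem_insert_of_mem hb⟩
        rwa [hpv, hpU b hb, hvy] at h1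
      · have h1 := hq a v ⟨h.symm, mem_insert_of_mem ha, mem_insert_self _ _⟩
        rwa [hpv, hpU a ha, hvy] at h1
    · intro q hq i
      have hvy := hq0 q hq
      show D q i = 0
      rw [hD, hvy, sub_self]
    · intro c
      refine ⟨Pi.single v c, ?_, ?_⟩
      · rw [mem_mot]
        rintro a b ⟨_, ha, hb⟩
        have ha' : a ≠ v := fun h => hv (h ▸ ha)
        have hb' : b ≠ v := fun h => hv (h ▸ hb)
        rw [Pi.single_eq_of_ne ha', Pi.single_eq_of_ne hb']
        simp
      · intro i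
        show D _ i = c i
        rw [hD, Pi.single_eq_same, Pi.single_eq_of_ne hyv, Pi.zero_apply, sub_zero]
  have hmin := hp.min (ins G (insert v U)) p'
  unfold ri at *
  rw [card_insert_of_notMem hv]
  omega

end Pool.Agent.TH409.RG
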