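import Pool.Agent.TH409.RG.StepM

/-!
# Trees of completely joined triples with three more edges are rigid
-/

set_option autoImplicit false

open Finset

namespace Pool.Agent.TH409.RG

open Pool.Agent.H789R5 Pool.Agent.H283R2.DR Pool.Agent.TH349.Rig

variable {V : Type} [Fintype V]

open Classical in
theorem res_all {p : V → Fin 3 → ℝ} (hp : MG p) (N : ℕ) : Res p N := by
  induction N with
  | zero =>
    intro G U k tr h F _ hlt
    omega
  | succ N ihN =>
    intro G U k tr h F H hlt
    have IH : Res p (U.card + k) := fun G' U' k' tr' h' F' H' hlt' =>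
      ihN G' U' k' tr' h' F' H' (by omega)
    by_cases hex : ∃ v ∈ U, (∀ i < k, v ∉ tr i) ∧ (F.filter (v ∈ ·)).card ≤ 1
    · obtain ⟨v, hv, hatt, hF⟩ := hex
      exact stepAB hp H IH hv hatt hF
    have hall : ∀ u ∈ U, (∀ i < k, u ∉ tr i) → 1 < (F.filter (u ∈ ·)).card := by
      intro u hu hatt
      by_contra hcon
      exact hex ⟨u, hu, hatt, by omega⟩
    obtain ⟨k, rfl⟩ : ∃ k', k = k' + 1 := ⟨k - 1, by have := H.ts.pos; omega⟩
    rcases Nat.eq_zero_or_pos k with rfl | hk0
    · exact stepOne hp H hall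
    have hk1 : k < k + 1 := by omega
    obtain ⟨q, hq⟩ : (tr k).Nonempty := by
      rw [← card_pos, H.ts.card k hk1]; norm_num
    obtain ⟨ρ, hρq⟩ : ∃ ρ, h q = ρ := ⟨_, rfl⟩
    have hρ : ρ < k := by
      rw [← hρq]
      exact H.ts.par k hk1 hk0 q hq
    have hP : ∀ z ∈ tr k, h z = ρ := by
      intro z hz
      rw [← hρq]
      exact H.ts.same k hk1 hk0 z hz q hq
    have hatt_of : ∀ v ∈ U, v ∉ tr 0 → h v = k → ∀ i < k + 1, v ∉ tr i := by
      intro v _ hv0 hhv i hi hc
      have hi0 : 0 < i := by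
        rcases Nat.eq_zero_or_pos i with rfl | h
        · exact absurd hc hv0
        · exact h
      have := H.ts.par i hi hi0 v hc
      omega
    by_cases hex2 : ∃ v ∈ U, v ∉ tr 0 ∧ h v = k
    swap
    · push Not at hex2
      refine IH G U k tr h F ⟨⟨hk0, ?_, ?_, ?_, ?_, ?_, ?_⟩, H.adj, H.F3, H.FE⟩ (by omega)
      · exact fun i hi => H.ts.card i (by omega)
      · exact fun i hi => H.ts.sub i (by omega)
      · exact fun i hi j hj => H.ts.disj i (by omega) j (by omega)
      · intro u hu hu0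
        have h1 := H.ts.hlt u hu hu0
        have h2 := hex2 u hu hu0
        omega
      · exact fun i hi => H.ts.par i (by omega)
      · exact fun i hi => H.ts.same i (by omega)
    obtain ⟨v, hv, hv0, hhv⟩ := hex2
    have hatt := hatt_of v hv hv0 hhv
    obtain ⟨w1, w2, e3, hw, hF, he31, he32⟩ := F_two H.F3 (hall v hv hatt)
    by_cases hL : ∀ u ∈ U, u ∉ tr 0 → h u = k → u = v
    · by_cases hFP : ∀ q ∈ tr k, ∀ e ∈ F, q ∉ e
      · exact stepDis hp H IH hρ hP hv hatt hhv hL hFP
      · push Not at hFP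
        obtain ⟨q', hq', e, he, hqe⟩ := hFP
        have hqv : q' ≠ v := fun hc => hatt k hk1 (hc ▸ hq')
        have hno : ∀ w, s(v, w) ∈ F → q' ∉ s(v, w) := by
          intro w hw hc
          rw [Sym2.mem_iff] at hc
          rcases hc with hc | hc
          · exact hqv hc
          · exact (H.two hw).2.2.2.1 ⟨hv, hv0, by rwa [hhv, ← hc]⟩
        have he' : e = e3 := by
          have he2 := he
          rw [hF, mem_insert, mem_insert, mem_singleton] at he2
          rcases he2 with rfl | rfl | rfl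
          · exact absurd hqe (hno _ he)
          · exact absurd hqe (hno _ he)
          · rfl
        subst he'
        obtain ⟨u, rfl⟩ := Sym2.mem_iff_exists.1 hqe
        exact stepM hp H IH hρ hP hv hatt hhv hL hall hw hF hq'
    · push Not at hL
      obtain ⟨v', hv', hv'0, hhv', hne⟩ := hL
      have hatt' := hatt_of v' hv' hv'0 hhv'
      obtain ⟨hmem, hor⟩ := F_other hF hw hne (hall v' hv' hatt')
      obtain ⟨y, rfl⟩ := Sym2.mem_iff_exists.1 hmem
      rcases hor with rfl | rfl
      · refine stepTwo hp H IH hρ hP hv hatt hhv hv' hatt' hhv' hne.symm hF hw.symm ?_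
        rintro rfl
        exact he31 Sym2.eq_swap
      · refine stepTwo hp H IH hρ hP hv hatt hhv hv' hatt' hhv' hne.symm (x := w1) (y := y) ?_
          hw ?_
        · rw [hF]
          ext e
          simp only [mem_insert, mem_singleton]
          tauto
        · rintro rfl
          exact he32 Sym2.eq_swap

open Classical in
/-- the edges of the tree -/
noncomputable def TEd (tr : ℕ → Finset V) (h : V → ℕ) : Finset (Sym2 V) :=
  (univ \ tr 0).biUnion fun a => (tr (h a)).image fun b => s(a, b)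

open Classical in
theorem card_TEd {k : ℕ} {tr : ℕ → Finset V} {h : V → ℕ} (H : TS univ k tr h) :
    (TEd tr h).card + 9 ≤ 3 * Fintype.card V := by
  have h1 : (TEd tr h).card ≤ (univ \ tr 0).card * 3 := by
    refine card_biUnion_le_card_mul _ _ _ ?_
    intro a ha
    refine card_image_le.trans ?_
    rw [H.card _ (H.hlt a (mem_univ _) (mem_sdiff.1 ha).2)]
  have h2 : (univ \ tr 0).card + 3 = Fintype.card V := by
    rw [← H.card 0 H.pos, card_sdiff_add_card_eq_card (subset_univ _), card_univ]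
  omega

open Classical in
theorem mem_TEd {tr : ℕ → Finset V} {h : V → ℕ} {a b : V} (hab : TA univ tr h a b) :
    s(a, b) ∈ TEd tr h := by
  refine mem_biUnion.2 ⟨a, mem_sdiff.2 ⟨mem_univ _, hab.2.1⟩, mem_image.2 ⟨b, hab.2.2, rfl⟩⟩

open Classical in
theorem rigid_of_TS {p : V → Fin 3 → ℝ} (hp : MG p) {G : SimpleGraph V} {k : ℕ}
    {tr : ℕ → Finset V} {h : V → ℕ} (H : TS univ k tr h) (hadj : ∀ a b, TA univ tr h a b → G.Adj a b)
    (hE : 3 * Fintype.card V ≤ G.edgeSet.ncard + 6) : mo G p ≤ 6 := by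
  rw [← ri_univ]
  have h1 := card_TEd H
  have h2 : G.edgeFinset.card = G.edgeSet.ncard := by
    rw [← SimpleGraph.coe_edgeFinset, Set.ncard_coe_finset]
  have h3 : 3 ≤ (G.edgeFinset \ TEd tr h).card := by
    have := le_card_sdiff (TEd tr h) G.edgeFinset
    omega
  obtain ⟨F, hF, hF3⟩ := exists_subset_card_eq h3
  refine res_all hp _ G univ k tr h F ⟨H, hadj, hF3, ?_⟩ (Nat.lt_succ_self _)
  intro a b hab
  have h4 := hF hab
  rw [mem_sdiff, SimpleGraph.mem_edgeFinset, SimpleGraph.mem_edgeSet] at h4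
  exact ⟨mem_univ _, mem_univ _, h4.1, fun hc => h4.2 (mem_TEd hc)⟩

/-- monotone properties of graphs which give rigidity from `3n - 6` edges on -/
theorem rank_of_mono {p : V → Fin 3 → ℝ} (hp : MG p) {G : SimpleGraph V}
    (h3 : 3 ≤ Fintype.card V)
    (hr : ∀ G' : SimpleGraph V, G ≤ G' → 3 * Fintype.card V ≤ G'.edgeSet.ncard + 6 →
      mo G' p ≤ 6) :
    genRank 3 G = min G.edgeSet.ncard (3 * Fintype.card V - 6) := by
  classical
  have h0 := genRank_add hp G
  have h6 := six_le hp h3 G
  have hE := rank_le_edges G p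
  by_cases hc : 3 * Fintype.card V ≤ G.edgeSet.ncard + 6
  · have h1 := hr G le_rfl hc
    omega
  push Not at hc
  -- enlarge the graph
  have h3 : 3 * Fintype.card V - 6 ≤ (⊤ : SimpleGraph V).edgeFinset.card := by
    rw [SimpleGraph.card_edgeFinset_top_eq_card_choose_two]
    obtain ⟨n, hn⟩ : ∃ n, Fintype.card V = n + 3 := ⟨Fintype.card V - 3, by omega⟩
    rw [hn, Nat.choose_two_right, Nat.le_div_iff_mul_le (by norm_num)]
    have : n + 3 - 1 = n + 2 := by omega
    rw [this]
    have : 3 * (n + 3) - 6 = 3 * n + 3 := by omega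
    rw [this]
    rcases n with _ | n
    · norm_num
    · nlinarith [Nat.zero_le (n * n)]
  obtain ⟨F, hF1, hF2, hF3⟩ := exists_subsuperset_card_eq
    (s := G.edgeFinset) (t := (⊤ : SimpleGraph V).edgeFinset) (n := 3 * Fintype.card V - 6)
    (SimpleGraph.edgeFinset_subset_edgeFinset.2 le_top) (by
      have : G.edgeFinset.card = G.edgeSet.ncard := by
        rw [← SimpleGraph.coe_edgeFinset, Set.ncard_coe_finset]
      omega) h3
  set G' : SimpleGraph V := SimpleGraph.fromEdgeSet (F : Set (Sym2 V)) with hG'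
  have hGe : G'.edgeSet = F := by
    rw [hG', SimpleGraph.edgeSet_fromEdgeSet]
    ext e
    constructor
    · exact fun h => h.1
    · intro h
      refine ⟨h, ?_⟩
      have := hF2 (mem_coe.1 h)
      rw [SimpleGraph.mem_edgeFinset] at this
      exact fun hd => (⊤ : SimpleGraph V).not_isDiag_of_mem_edgeSet this hd
  have hGG' : G ≤ G' := by
    rw [← SimpleGraph.edgeSet_subset_edgeSet, hGe]
    intro e he
    exact mem_coe.2 (hF1 (SimpleGraph.mem_edgeFinset.2 he))
  have h4 : G'.edgeSet.ncard = 3 * Fintype.card V - 6 := by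
    rw [hGe, Set.ncard_coe_finset, hF3]
  have h5 := hr G' hGG' (by omega)
  have h7 := mo_le_add (G := G) (G' := G') p
  have h8 : (G'.edgeSet \ G.edgeSet).ncard = G'.edgeSet.ncard - G.edgeSet.ncard := by
    rw [Set.ncard_sdiff (SimpleGraph.edgeSet_subset_edgeSet.2 hGG') (Set.toFinite _)]
  omega

theorem rank_TS {G : SimpleGraph V} {k : ℕ} {tr : ℕ → Finset V} {h : V → ℕ}
    (H : TS univ k tr h) (hadj : ∀ a b, TA univ tr h a b → G.Adj a b) :
    genRank 3 G = min G.edgeSet.ncard (3 * Fintype.card V - 6) := by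
  obtain ⟨p, hp⟩ := exists_mg V 3
  refine rank_of_mono hp ?_ fun G' hG' hE =>
    rigid_of_TS hp H (fun a b hab => hG' (hadj a b hab)) hE
  rw [← H.card 0 H.pos, ← card_univ]
  exact card_le_card (subset_univ _)

end Pool.Agent.TH409.RG
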