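import Pool.Agent.TH409.RG.Dis

/-!
# One vertex at the last triple and an additional edge at this triple
-/

set_option autoImplicit false

open Finset

namespace Pool.Agent.TH409.RG

open Pool.Agent.H789R5 Pool.Agent.H283R2.DR Pool.Agent.TH349.Rig

variable {V : Type} [Fintype V]

section M

variable {p : V → Fin 3 → ℝ} {G : SimpleGraph V} {U : Finset V} {k ρ : ℕ}
    {tr : ℕ → Finset V} {h : V → ℕ} {F : Finset (Sym2 V)} {v w1 w2 p1 u : V}

open Classical in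
theorem stepM0 (hp : MG p) (H : Hyp G U (k + 1) tr h F)
    (IH : Res p (U.card + (k + 1))) (hρ : ρ < k) (hP : ∀ z ∈ tr k, h z = ρ)
    (hv : v ∈ U) (hatt : ∀ i < k + 1, v ∉ tr i) (hhv : h v = k)
    (hw : w1 ≠ w2) (hF : F = {s(v, w1), s(v, w2), s(p1, u)}) (hp1 : p1 ∈ tr k)
    (hN1 : ¬ NR U tr h ρ w1) (hN2 : ¬ NR U tr h ρ w2) : ri p G U := by
  have hρ' : ρ < k + 1 := by omega
  have hk1 : k < k + 1 := by omega
  obtain ⟨r, hr, hr1, hr2⟩ := exists_third (H.ts.card ρ hρ') w1 w2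
  have h1 := H.two (a := v) (b := w1) (by rw [hF]; simp)
  have h2 := H.two (a := v) (b := w2) (by rw [hF]; simp)
  have h3 := H.two (a := p1) (b := u) (by rw [hF]; simp)
  have hv0 : v ∉ tr 0 := hatt 0 (by omega)
  have hrv : r ≠ v := fun hc => hatt ρ hρ' (hc ▸ hr)
  have hrU : r ∈ U := H.ts.sub ρ hρ' hr
  have hr0 : ∀ z ∈ tr k, z ∉ tr 0 := fun z hz => H.ts.disj k hk1 0 (by omega) (by omega) z hz
  have hw1P : w1 ∉ tr k := fun hc => h1.2.2.2.1 ⟨hv, hv0, by rwa [hhv]⟩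
  have hw2P : w2 ∉ tr k := fun hc => h2.2.2.2.1 ⟨hv, hv0, by rwa [hhv]⟩
  have hpv : p1 ≠ v := fun hc => hatt k hk1 (hc ▸ hp1)
  have huv : u ≠ v := by
    rintro rfl
    exact h3.2.2.2.2 ⟨hv, hv0, by rwa [hhv]⟩
  have hrp : r ≠ p1 := fun hc => H.ts.disj ρ hρ' k hk1 (by omega) r hr (hc ▸ hp1)
  refine stepMerge hp H IH hv hatt hrU hrv ?_ {s(r, w1), s(r, w2), s(p1, u)} ?_ (FE3 ?_ ?_ ?_)
  · intro z hz
    rw [hhv] at hz
    refine (H.adj z r ⟨H.ts.sub k (by omega) hz, hr0 z hz, ?_⟩).symm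
    rwa [hP z hz]
  · refine card_three (s_ne_left hw) (s_ne (Or.inl hrp) (Or.inr ?_)) (s_ne (Or.inl hrp) (Or.inr ?_))
    · exact fun hc => hw1P (hc ▸ hp1)
    · exact fun hc => hw2P (hc ▸ hp1)
  · exact ⟨mem_erase.2 ⟨hrv, hrU⟩, mem_erase.2 ⟨h1.2.2.1.ne', h1.2.1⟩, mg_adj h1.2.2.1 hr1,
      fun hc => hN1 ⟨r, hr, Or.inr hc⟩, fun hc => hN1 ⟨r, hr, Or.inl hc⟩⟩
  · exact ⟨mem_erase.2 ⟨hrv, hrU⟩, mem_erase.2 ⟨h2.2.2.1.ne', h2.2.1⟩, mg_adj h2.2.2.1 hr2,
      fun hc => hN2 ⟨r, hr, Or.inr hc⟩, fun hc => hN2 ⟨r, hr, Or.inl hc⟩⟩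
  · exact ⟨mem_erase.2 ⟨hpv, h3.1⟩, mem_erase.2 ⟨huv, h3.2.1⟩, le_mg _ _ _ h3.2.2.1, h3.2.2.2⟩

open Classical in
theorem stepMb (hp : MG p) (H : Hyp G U (k + 1) tr h F)
    (IH : Res p (U.card + (k + 1))) (hρ : ρ < k) (hP : ∀ z ∈ tr k, h z = ρ)
    (hv : v ∈ U) (hatt : ∀ i < k + 1, v ∉ tr i) (hhv : h v = k)
    (hL : ∀ u ∈ U, u ∉ tr 0 → h u = k → u = v)
    (hw : w1 ≠ w2) (hF : F = {s(v, w1), s(v, w2), s(p1, w1)}) (hp1 : p1 ∈ tr k)
    (hw1 : ∀ i < k + 1, w1 ∉ tr i) (hhw : h w1 = ρ) : ri p G U := by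
  have hρ' : ρ < k + 1 := by omega
  have hk1 : k < k + 1 := by omega
  have hk0 : (0 : ℕ) ≠ k := by omega
  have hP3 := H.ts.card k hk1
  have hR3 := H.ts.card ρ hρ'
  obtain ⟨p3, hp3, hp31, -⟩ := exists_third hP3 p1 p1
  have h1 := H.two (a := v) (b := w1) (by rw [hF]; simp)
  have h2 := H.two (a := v) (b := w2) (by rw [hF]; simp)
  have h3 := H.two (a := p1) (b := w1) (by rw [hF]; simp)
  have hv0 : v ∉ tr 0 := hatt 0 (by omega)
  have hw2P : w2 ∉ tr k := fun hc => h2.2.2.2.1 ⟨hv, hv0, by rwa [hhv]⟩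
  obtain ⟨a, ha, b, hb, hab, hnot⟩ := inner_pair hR3 (F := {s(v, w2), s(p1, w1)}) card_le_two
  rw [mem_insert, mem_singleton, not_or] at hnot
  set tr' : ℕ → Finset V := Function.update tr k (insert w1 ((tr k).erase p3)) with htr'
  have htk : tr' k = insert w1 ((tr k).erase p3) := Function.update_self _ _ _
  have htn : ∀ i, i ≠ k → tr' i = tr i := fun i hi => Function.update_of_ne hi _ _
  have hw1e : w1 ∉ (tr k).erase p3 := fun hc => hw1 k hk1 (mem_of_mem_erase hc)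
  have hp3n : ∀ i, i < k → p3 ∉ tr i := fun i hi => H.ts.disj k hk1 i (by omega) (by omega) p3 hp3
  have hvp3 : v ≠ p3 := fun hc => hatt k hk1 (hc ▸ hp3)
  have hwp3 : w1 ≠ p3 := fun hc => hw1 k hk1 (hc ▸ hp3)
  have hp3U : p3 ∈ U := H.ts.sub k hk1 hp3
  have htk_mem : ∀ x ∈ tr' k, x = w1 ∨ (x ∈ tr k ∧ x ≠ p3) := by
    intro x hx
    rw [htk, mem_insert, mem_erase] at hx
    tauto
  have hTS : TS (U.erase p3) (k + 1) tr' h := by
    refine ⟨H.ts.pos, ?_, ?_, ?_, ?_, ?_, ?_⟩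
    · intro i hi
      by_cases hik : i = k
      · rw [hik, htk, card_insert_of_notMem hw1e, card_erase_of_mem hp3, hP3]
      · rw [htn i hik]
        exact H.ts.card i hi
    · intro i hi x hx
      by_cases hik : i = k
      · rw [hik] at hx
        rcases htk_mem x hx with rfl | ⟨hx, hne⟩
        · exact mem_erase.2 ⟨hwp3, h1.2.1⟩
        · exact mem_erase.2 ⟨hne, H.ts.sub k hk1 hx⟩
      · rw [htn i hik] at hx
        exact mem_erase.2 ⟨fun hc => hp3n i (by omega) (hc ▸ hx), H.ts.sub i hi hx⟩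
    · intro i hi j hj hij x hx hx'
      by_cases hik : i = k
      · rw [hik] at hx
        rw [htn j (fun hc => hij (hik.trans hc.symm))] at hx'
        rcases htk_mem x hx with rfl | ⟨hx, hne⟩
        · exact hw1 j hj hx'
        · exact H.ts.disj k hk1 j hj (fun hc => hij (hik.trans hc)) x hx hx'
      · rw [htn i hik] at hx
        by_cases hjk : j = k
        · rw [hjk] at hx'
          rcases htk_mem x hx' with rfl | ⟨hx', hne⟩
          · exact hw1 i hi hx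
          · exact H.ts.disj i hi k hk1 hik x hx hx'
        · rw [htn j hjk] at hx'
          exact H.ts.disj i hi j hj hij x hx hx'
    · intro x hx hx0
      rw [htn 0 hk0] at hx0
      exact H.ts.hlt x (mem_of_mem_erase hx) hx0
    · intro i hi hi0 x hx
      by_cases hik : i = k
      · rw [hik] at hx ⊢
        rcases htk_mem x hx with rfl | ⟨hx, hne⟩
        · omega
        · rw [hP x hx]
          exact hρ
      · rw [htn i hik] at hx
        exact H.ts.par i hi hi0 x hx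
    · intro i hi hi0 x hx x' hx'
      by_cases hik : i = k
      · have h4 : ∀ y ∈ tr' k, h y = ρ := by
          intro y hy
          rcases htk_mem y hy with rfl | ⟨hy, hne⟩
          · exact hhw
          · exact hP y hy
        rw [hik] at hx hx'
        rw [h4 x hx, h4 x' hx']
      · rw [htn i hik] at hx hx'
        exact H.ts.same i hi hi0 x hx x' hx'
  have hvt : ∀ i < k + 1, v ∉ tr' i := by
    intro i hi hc
    by_cases hik : i = k
    · rw [hik] at hc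
      rcases htk_mem v hc with hc | ⟨hc, _⟩
      · exact h1.2.2.1.ne hc
      · exact hatt k hk1 hc
    · rw [htn i hik] at hc
      exact hatt i hi hc
  have hp1t : p1 ∈ tr' k := by
    rw [htk, mem_insert, mem_erase]
    exact Or.inr ⟨hp31.symm, hp1⟩
  have hw1t : w1 ∈ tr' k := by
    rw [htk]
    exact mem_insert_self _ _
  have hat : a ∈ tr' ρ := by rwa [htn ρ (by omega)]
  have hbt : b ∈ tr' ρ := by rwa [htn ρ (by omega)]
  have key : ri p (G ⊔ SimpleGraph.edge a b) (U.erase p3) := by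
    refine IH _ _ _ _ _ {s(v, w2), s(p1, w1), s(a, b)} ⟨hTS, ?_, ?_, FE3 ?_ ?_ ?_⟩ ?_
    · rintro x y ⟨hx, hx0, hy⟩
      rw [htn 0 hk0] at hx0
      have hxU := mem_of_mem_erase hx
      left
      by_cases hxk : h x = k
      · have hxv := hL x hxU hx0 hxk
        subst hxv
        rw [hxk] at hy
        rcases htk_mem y hy with rfl | ⟨hy, _⟩
        · exact h1.2.2.1
        · exact H.adj x y ⟨hxU, hx0, by rwa [hxk]⟩
      · rw [htn _ hxk] at hy
        exact H.adj x y ⟨hxU, hx0, hy⟩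
    · refine card_three (s_ne (Or.inl ?_) (Or.inl h1.2.2.1.ne)) (fun hc => hnot.1 hc.symm)
        (fun hc => hnot.2 hc.symm)
      exact fun hc => hatt k hk1 (hc ▸ hp1)
    · refine ⟨mem_erase.2 ⟨hvp3, hv⟩, mem_erase.2 ⟨fun hc => hw2P (hc ▸ hp3), h2.2.1⟩,
        Or.inl h2.2.2.1, ?_, ?_⟩
      · rintro ⟨_, _, hc⟩
        rw [hhv] at hc
        rcases htk_mem _ hc with hc | ⟨hc, _⟩
        · exact hw hc.symm
        · exact hw2P hc
      · rintro ⟨hc0, hc1, hc2⟩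
        exact hvt _ (hTS.hlt w2 hc0 hc1) hc2
    · exact ⟨mem_erase.2 ⟨hp31.symm, h3.1⟩, mem_erase.2 ⟨hwp3, h3.2.1⟩, Or.inl h3.2.2.1,
        hTS.noTA hk1 hp1t hw1t, hTS.noTA hk1 hw1t hp1t⟩
    · refine ⟨hTS.sub ρ hρ' hat, hTS.sub ρ hρ' hbt, Or.inr ?_, hTS.noTA hρ' hat hbt,
        hTS.noTA hρ' hbt hat⟩
      rw [SimpleGraph.edge_adj]
      exact ⟨Or.inl ⟨rfl, rfl⟩, hab⟩
    · have := card_erase_lt_of_mem hp3U
      omega
  have hvR : v ∉ tr ρ := hatt ρ hρ'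
  have h4 := ri_ext1 hp (notMem_erase p3 U) (N := insert v (tr ρ)) (x := a) (y := b) ?_ ?_ ?_
      (mem_insert_of_mem ha) (mem_insert_of_mem hb) hab key
  · rwa [insert_erase hp3U] at h4
  · intro z hz
    rw [mem_insert] at hz
    rcases hz with rfl | hz
    · exact mem_erase.2 ⟨hvp3, hv⟩
    · exact mem_erase.2 ⟨fun hc => hp3n ρ hρ (hc ▸ hz), H.ts.sub ρ hρ' hz⟩
  · rw [card_insert_of_notMem hvR, hR3]
  · intro z hz
    rw [mem_insert] at hz
    rcases hz with rfl | hz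
    · exact (H.adj z p3 ⟨hv, hv0, by rwa [hhv]⟩).symm
    · exact H.adj p3 z ⟨hp3U, hp3n 0 (by omega), by rwa [hP p3 hp3]⟩

open Classical in
theorem stepMai (hp : MG p) (H : Hyp G U (k + 1) tr h F)
    (IH : Res p (U.card + (k + 1))) (hρ : ρ < k) (hP : ∀ z ∈ tr k, h z = ρ)
    (hv : v ∈ U) (hatt : ∀ i < k + 1, v ∉ tr i) (hhv : h v = k)
    (hL : ∀ u ∈ U, u ∉ tr 0 → h u = k → u = v)
    (hw : w1 ≠ w2) (hF : F = {s(v, w1), s(v, w2), s(p1, u)}) (hp1 : p1 ∈ tr k)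
    {j : ℕ} (hj : j < k) (hw1 : w1 ∈ tr j) (hw2 : w2 ∈ tr j)
    (hNR : ∀ z ∈ tr j, NR U tr h ρ z) : ri p G U := by
  have hρ' : ρ < k + 1 := by omega
  have hk1 : k < k + 1 := by omega
  have hj1 : j < k + 1 := by omega
  have hk0 : (0 : ℕ) ≠ k := by omega
  have hP3 := H.ts.card k hk1
  have hR3 := H.ts.card ρ hρ'
  obtain ⟨z, hz, hz1, hz2⟩ := exists_third (H.ts.card j hj1) w1 w2
  obtain ⟨p2, hp2, hp21, hp2u⟩ := exists_third hP3 p1 u
  obtain ⟨p3, hp3, hp31, hp32⟩ := exists_third hP3 p1 p2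
  have h1 := H.two (a := v) (b := w1) (by rw [hF]; simp)
  have h2 := H.two (a := v) (b := w2) (by rw [hF]; simp)
  have h3 := H.two (a := p1) (b := u) (by rw [hF]; simp)
  have hv0 : v ∉ tr 0 := hatt 0 (by omega)
  have huv : u ≠ v := by
    rintro rfl
    exact h3.2.2.2.2 ⟨hv, hv0, by rwa [hhv]⟩
  have hjset : ∀ x ∈ tr j, x = w1 ∨ x = w2 ∨ x = z := by
    have h4 : ({w1, w2, z} : Finset V) ⊆ tr j := by
      intro x hx
      simp only [mem_insert, mem_singleton] at hx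
      rcases hx with rfl | rfl | rfl <;> assumption
    have h5 := eq_of_subset_of_card_le h4 (by
      rw [H.ts.card j hj1, card_eq_three.2 ⟨w1, w2, z, hw, hz1.symm, hz2.symm, rfl⟩])
    intro x hx
    rw [← h5] at hx
    simpa using hx
  have hPv : ∀ q ∈ tr k, G.Adj v q := fun q hq => H.adj v q ⟨hv, hv0, by rwa [hhv]⟩
  have hPR : ∀ q ∈ tr k, ∀ r ∈ tr ρ, G.Adj q r := fun q hq r hr =>
    H.adj q r ⟨H.ts.sub k hk1 hq, H.ts.disj k hk1 0 (by omega) hk0.symm q hq, by rwa [hP q hq]⟩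
  have hPn : ∀ q ∈ tr k, ∀ i < k, q ∉ tr i := fun q hq i hi =>
    H.ts.disj k hk1 i (by omega) (by omega) q hq
  have hPvne : ∀ q ∈ tr k, v ≠ q := fun q hq hc => hatt k hk1 (hc ▸ hq)
  have hp2U : p2 ∈ U := H.ts.sub k hk1 hp2
  have hsub : ∀ i < k, tr i ⊆ U.erase p2 := by
    intro i hi x hx
    exact mem_erase.2 ⟨fun hc => hPn p2 hp2 i hi (hc ▸ hx), H.ts.sub i (by omega) hx⟩
  have hTS := H.ts.drop (U' := U.erase p2) (j := j) (by omega) hatt hj (erase_subset _ _) hsub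
    (fun x hx => hL x (mem_of_mem_erase hx))
  have hTA : ∀ a b, a ≠ v → TA (U.erase p2) tr (Function.update h v j) a b → TA U tr h a b := by
    intro a b hav hc
    have h1 := hc.2.2
    rw [Function.update_of_ne hav] at h1
    exact ⟨mem_of_mem_erase hc.1, hc.2.1, h1⟩
  have hTAv : ∀ b, TA (U.erase p2) tr (Function.update h v j) v b → b ∈ tr j := by
    intro b hc
    have h1 := hc.2.2
    rwa [Function.update_self] at h1
  have hTAv' : ∀ b, ¬ TA (U.erase p2) tr (Function.update h v j) b v := by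
    intro b hc
    have h4 := hTS.hlt b hc.1 hc.2.1
    exact hatt _ (by omega) hc.2.2
  have key : ri p (mg G p2 z) (U.erase p2) := by
    refine IH _ _ _ _ _ {s(v, p1), s(v, p3), s(p1, u)} ⟨hTS, ?_, ?_, FE3 ?_ ?_ ?_⟩ ?_
    · intro a b hc
      by_cases hav : a = v
      · subst hav
        rcases hjset b (hTAv b hc) with rfl | rfl | rfl
        · exact le_mg _ _ _ h1.2.2.1
        · exact le_mg _ _ _ h2.2.2.1
        · exact (mg_adj (hPv p2 hp2).symm (fun hc => hatt j hj1 (hc ▸ hz))).symm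
      · exact le_mg _ _ _ (H.adj a b (hTA a b hav hc))
    · exact card_three (s_ne_left hp31.symm) (s_ne (Or.inl (hPvne p1 hp1)) (Or.inl huv.symm))
        (s_ne (Or.inl (hPvne p1 hp1)) (Or.inl huv.symm))
    · refine ⟨mem_erase.2 ⟨hPvne p2 hp2, hv⟩, mem_erase.2 ⟨hp21.symm, h3.1⟩,
        le_mg _ _ _ (hPv p1 hp1), fun hc => hPn p1 hp1 j hj (hTAv _ hc), hTAv' _⟩
    · refine ⟨mem_erase.2 ⟨hPvne p2 hp2, hv⟩, mem_erase.2 ⟨hp32, H.ts.sub k hk1 hp3⟩,
        le_mg _ _ _ (hPv p3 hp3), fun hc => hPn p3 hp3 j hj (hTAv _ hc), hTAv' _⟩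
    · refine ⟨mem_erase.2 ⟨hp21.symm, h3.1⟩, mem_erase.2 ⟨hp2u.symm, h3.2.1⟩,
        le_mg _ _ _ h3.2.2.1, fun hc => h3.2.2.2.1 (hTA _ _ (hPvne p1 hp1).symm hc),
        fun hc => h3.2.2.2.2 (hTA _ _ huv hc)⟩
    · have := card_erase_lt_of_mem hp2U
      omega
  have h5 := ri_fold hp (G := G) (G' := mg G p2 z) (v := p2) (y := z) (T := tr ρ)
      (notMem_erase p2 U) (hsub j hj hz) (hsub ρ hρ) hR3 (hPR p2 hp2)
      (fun r hr => H.NR_adj hρ' (hNR z hz) hr) (fun a _ b _ hab => hab.2) key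
  rwa [insert_erase hp2U] at h5

open Classical in
theorem stepMaii (hp : MG p) (H : Hyp G U (k + 1) tr h F)
    (IH : Res p (U.card + (k + 1))) (hρ : ρ < k) (hP : ∀ z ∈ tr k, h z = ρ)
    (hv : v ∈ U) (hatt : ∀ i < k + 1, v ∉ tr i) (hhv : h v = k)
    (hL : ∀ u ∈ U, u ∉ tr 0 → h u = k → u = v)
    (hF : F = {s(v, w1), s(v, w2), s(p1, u)}) (hp1 : p1 ∈ tr k)
    {j : ℕ} (hj : j < k) (hw1 : w1 ∈ tr j) (hw2 : w2 ∉ tr j)
    (hNR : ∀ z ∈ tr j, NR U tr h ρ z) : ri p G U := by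
  have hρ' : ρ < k + 1 := by omega
  have hk1 : k < k + 1 := by omega
  have hj1 : j < k + 1 := by omega
  have hk0 : (0 : ℕ) ≠ k := by omega
  have hP3 := H.ts.card k hk1
  have hR3 := H.ts.card ρ hρ'
  obtain ⟨z2, hz2, hz21, -⟩ := exists_third (H.ts.card j hj1) w1 w1
  obtain ⟨z3, hz3, hz31, hz32⟩ := exists_third (H.ts.card j hj1) w1 z2
  obtain ⟨p2, hp2, hp21, -⟩ := exists_third hP3 p1 p1
  obtain ⟨p3, hp3, hp31, hp32⟩ := exists_third hP3 p1 p2
  have h1 := H.two (a := v) (b := w1) (by rw [hF]; simp)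
  have h2 := H.two (a := v) (b := w2) (by rw [hF]; simp)
  have h3 := H.two (a := p1) (b := u) (by rw [hF]; simp)
  have hv0 : v ∉ tr 0 := hatt 0 (by omega)
  have hw2P : w2 ∉ tr k := fun hc => h2.2.2.2.1 ⟨hv, hv0, by rwa [hhv]⟩
  have huv : u ≠ v := by
    rintro rfl
    exact h3.2.2.2.2 ⟨hv, hv0, by rwa [hhv]⟩
  have hjset : ∀ x ∈ tr j, x = w1 ∨ x = z2 ∨ x = z3 := by
    have h4 : ({w1, z2, z3} : Finset V) ⊆ tr j := by
      intro x hx
      simp only [mem_insert, mem_singleton] at hx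
      rcases hx with rfl | rfl | rfl <;> assumption
    have h5 := eq_of_subset_of_card_le h4 (by
      rw [H.ts.card j hj1, card_eq_three.2 ⟨w1, z2, z3, hz21.symm, hz31.symm, hz32.symm, rfl⟩])
    intro x hx
    rw [← h5] at hx
    simpa using hx
  have hPv : ∀ q ∈ tr k, G.Adj v q := fun q hq => H.adj v q ⟨hv, hv0, by rwa [hhv]⟩
  have hPR : ∀ q ∈ tr k, ∀ r ∈ tr ρ, G.Adj q r := fun q hq r hr =>
    H.adj q r ⟨H.ts.sub k hk1 hq, H.ts.disj k hk1 0 (by omega) hk0.symm q hq, by rwa [hP q hq]⟩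
  have hPn : ∀ q ∈ tr k, ∀ i < k, q ∉ tr i := fun q hq i hi =>
    H.ts.disj k hk1 i (by omega) (by omega) q hq
  have hPvne : ∀ q ∈ tr k, v ≠ q := fun q hq hc => hatt k hk1 (hc ▸ hq)
  have hjv : ∀ x ∈ tr j, x ≠ v := fun x hx hc => hatt j hj1 (hc ▸ hx)
  have hp2U : p2 ∈ U := H.ts.sub k hk1 hp2
  have hp3U : p3 ∈ U := H.ts.sub k hk1 hp3
  have hp3U' : p3 ∈ U.erase p2 := mem_erase.2 ⟨hp32, hp3U⟩
  set U2 : Finset V := (U.erase p2).erase p3 with hU2
  have hmem : ∀ x ∈ U2, x ∈ U := fun x hx => mem_of_mem_erase (mem_of_mem_erase hx)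
  have hmem' : ∀ x ∈ U, x ≠ p2 → x ≠ p3 → x ∈ U2 := fun x hx h2 h3 =>
    mem_erase.2 ⟨h3, mem_erase.2 ⟨h2, hx⟩⟩
  have hsub1 : ∀ i < k, tr i ⊆ U.erase p2 := by
    intro i hi x hx
    exact mem_erase.2 ⟨fun hc => hPn p2 hp2 i hi (hc ▸ hx), H.ts.sub i (by omega) hx⟩
  have hsub : ∀ i < k, tr i ⊆ U2 := by
    intro i hi x hx
    exact hmem' x (H.ts.sub i (by omega) hx) (fun hc => hPn p2 hp2 i hi (hc ▸ hx))
      (fun hc => hPn p3 hp3 i hi (hc ▸ hx))
  have hTS := H.ts.drop (U' := U2) (j := j) (by omega) hatt hj hmem hsub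
    (fun x hx => hL x (hmem x hx))
  have hTA : ∀ a b, a ≠ v → TA U2 tr (Function.update h v j) a b → TA U tr h a b := by
    intro a b hav hc
    have h1 := hc.2.2
    rw [Function.update_of_ne hav] at h1
    exact ⟨hmem _ hc.1, hc.2.1, h1⟩
  have hTAv : ∀ b, TA U2 tr (Function.update h v j) v b → b ∈ tr j := by
    intro b hc
    have h1 := hc.2.2
    rwa [Function.update_self] at h1
  have hTAv' : ∀ b, ¬ TA U2 tr (Function.update h v j) b v := by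
    intro b hc
    have h4 := hTS.hlt b hc.1 hc.2.1
    exact hatt _ (by omega) hc.2.2
  set G1 := mg G p2 z2 with hG1
  set G2 := mg G1 p3 z3 with hG2
  have hle1 : G ≤ G1 := le_mg _ _ _
  have hle2 : G1 ≤ G2 := le_mg _ _ _
  have hle : G ≤ G2 := hle1.trans hle2
  have hzp : ∀ x ∈ tr j, ∀ q ∈ tr k, x ≠ q := fun x hx q hq hc => hPn q hq j hj (hc ▸ hx)
  -- no tree edges between the triples
  have hjρ : j ≠ ρ := by
    rintro rfl
    exact H.ts.NR_notMem hρ' (hNR w1 hw1) hw1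
  have hno : ∀ x ∈ tr j, ¬ TA U2 tr (Function.update h v j) p1 x ∧
      ¬ TA U2 tr (Function.update h v j) x p1 := by
    intro x hx
    constructor
    · intro hc
      have h4 := (hTA _ _ (hPvne p1 hp1).symm hc).2.2
      rw [hP p1 hp1] at h4
      exact H.ts.disj j hj1 ρ hρ' hjρ x hx h4
    · intro hc
      have h4 := (hTA _ _ (hjv x hx) hc)
      have h5 := H.ts.idx (H.ts.hlt x h4.1 h4.2.1) hk1 h4.2.2 hp1
      exact hjv x hx (hL x h4.1 h4.2.1 h5)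
  obtain ⟨u', hu'v, hu'U, hu'a, hu'1, hu'2⟩ : ∃ u', u' ≠ v ∧ u' ∈ U2 ∧ G2.Adj p1 u' ∧
      ¬ TA U2 tr (Function.update h v j) p1 u' ∧ ¬ TA U2 tr (Function.update h v j) u' p1 := by
    by_cases hu2 : u = p2
    · refine ⟨z2, hjv z2 hz2, hsub j hj hz2, ?_, hno z2 hz2⟩
      refine hle2 (mg_adj ?_ (hzp z2 hz2 p1 hp1)).symm
      rw [← hu2]
      exact h3.2.2.1.symm
    by_cases hu3 : u = p3
    · refine ⟨z3, hjv z3 hz3, hsub j hj hz3, ?_, hno z3 hz3⟩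
      refine (mg_adj ?_ (hzp z3 hz3 p1 hp1)).symm
      rw [← hu3]
      exact hle1 h3.2.2.1.symm
    exact ⟨u, huv, hmem' u h3.2.1 hu2 hu3, hle h3.2.2.1,
      fun hc => h3.2.2.2.1 (hTA _ _ (hPvne p1 hp1).symm hc),
      fun hc => h3.2.2.2.2 (hTA _ _ huv hc)⟩
  have hvU2 : v ∈ U2 := hmem' v hv (hPvne p2 hp2) (hPvne p3 hp3)
  have hp1U2 : p1 ∈ U2 := hmem' p1 h3.1 hp21.symm hp31.symm
  have key : ri p G2 U2 := by
    refine IH _ _ _ _ _ {s(v, p1), s(v, w2), s(p1, u')} ⟨hTS, ?_, ?_, FE3 ?_ ?_ ?_⟩ ?_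
    · intro a b hc
      by_cases hav : a = v
      · subst hav
        rcases hjset b (hTAv b hc) with rfl | rfl | rfl
        · exact hle h1.2.2.1
        · exact hle2 (mg_adj (hPv p2 hp2).symm (hjv _ hz2)).symm
        · exact (mg_adj (hle1 (hPv p3 hp3).symm) (hjv _ hz3)).symm
      · exact hle (H.adj a b (hTA a b hav hc))
    · exact card_three (s_ne_left (fun hc => hw2P (hc ▸ hp1)))
        (s_ne (Or.inl (hPvne p1 hp1)) (Or.inl hu'v.symm))
        (s_ne (Or.inl (hPvne p1 hp1)) (Or.inl hu'v.symm))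
    · exact ⟨hvU2, hp1U2, hle (hPv p1 hp1), fun hc => hPn p1 hp1 j hj (hTAv _ hc), hTAv' _⟩
    · refine ⟨hvU2, hmem' w2 h2.2.1 (fun hc => hw2P (hc ▸ hp2)) (fun hc => hw2P (hc ▸ hp3)),
        hle h2.2.2.1, fun hc => hw2 (hTAv _ hc), hTAv' _⟩
    · exact ⟨hp1U2, hu'U, hu'a, hu'1, hu'2⟩
    · have h4 := card_erase_lt_of_mem hp2U
      have h5 := card_erase_lt_of_mem hp3U'
      rw [← hU2] at h5
      omega
  have h5 := ri_fold hp (G := G1) (G' := G2) (v := p3) (y := z3) (T := tr ρ)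
      (notMem_erase p3 _) (hsub j hj hz3) (hsub ρ hρ) hR3 (fun r hr => hle1 (hPR p3 hp3 r hr))
      (fun r hr => hle1 (H.NR_adj hρ' (hNR z3 hz3) hr)) (fun a _ b _ hab => hab.2) key
  rw [insert_erase hp3U'] at h5
  have h6 := ri_fold hp (G := G) (G' := G1) (v := p2) (y := z2) (T := tr ρ)
      (notMem_erase p2 _) (hsub1 j hj hz2) (hsub1 ρ hρ) hR3 (fun r hr => hPR p2 hp2 r hr)
      (fun r hr => H.NR_adj hρ' (hNR z2 hz2) hr) (fun a _ b _ hab => hab.2) h5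
  rwa [insert_erase hp2U] at h6

open Classical in
theorem stepM1 (hp : MG p) (H : Hyp G U (k + 1) tr h F)
    (IH : Res p (U.card + (k + 1))) (hρ : ρ < k) (hP : ∀ z ∈ tr k, h z = ρ)
    (hv : v ∈ U) (hatt : ∀ i < k + 1, v ∉ tr i) (hhv : h v = k)
    (hL : ∀ u ∈ U, u ∉ tr 0 → h u = k → u = v)
    (hall : ∀ u ∈ U, (∀ i < k + 1, u ∉ tr i) → 1 < (F.filter (u ∈ ·)).card)
    (hw : w1 ≠ w2) (hF : F = {s(v, w1), s(v, w2), s(p1, u)}) (hp1 : p1 ∈ tr k)
    (hN1 : NR U tr h ρ w1) : ri p G U := by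
  have hρ' : ρ < k + 1 := by omega
  have hk1 : k < k + 1 := by omega
  have h1 := H.two (a := v) (b := w1) (by rw [hF]; simp)
  have hv0 : v ∉ tr 0 := hatt 0 (by omega)
  have hw1P : w1 ∉ tr k := fun hc => h1.2.2.2.1 ⟨hv, hv0, by rwa [hhv]⟩
  by_cases hb : ∀ i < k + 1, w1 ∉ tr i
  · have h2 := (F_other hF hw h1.2.2.1.ne' (hall w1 h1.2.1 hb)).1
    have h3 : u = w1 := by
      rw [Sym2.mem_iff] at h2
      rcases h2 with h2 | h2
      · exact absurd (h2 ▸ hp1) hw1P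
      · exact h2.symm
    subst h3
    have hhw : h u = ρ := by
      obtain ⟨r, hr, hc | hc⟩ := hN1
      · exact H.ts.idx (H.ts.hlt u hc.1 hc.2.1) hρ' hc.2.2 hr
      · exact absurd hc.2.2 (hb _ (H.ts.hlt r hc.1 hc.2.1))
    exact stepMb hp H IH hρ hP hv hatt hhv hL hw hF hp1 hb hhw
  · push Not at hb
    obtain ⟨j, hj1, hwj⟩ := hb
    have hjk : j ≠ k := by
      rintro rfl
      exact hw1P hwj
    have hj : j < k := by omega
    have hNR : ∀ z ∈ tr j, NR U tr h ρ z := by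
      intro z hz
      obtain ⟨r, hr, hc | hc⟩ := hN1
      · refine ⟨r, hr, Or.inl ?_⟩
        have hj0 : 0 < j := by
          rcases Nat.eq_zero_or_pos j with rfl | h
          · exact absurd hwj hc.2.1
          · exact h
        refine ⟨H.ts.sub j hj1 hz, H.ts.disj j hj1 0 (by omega) (by omega) z hz, ?_⟩
        rw [H.ts.same j hj1 hj0 z hz w1 hwj]
        exact hc.2.2
      · refine ⟨r, hr, Or.inr ?_⟩
        refine ⟨hc.1, hc.2.1, ?_⟩
        rw [H.ts.idx (H.ts.hlt r hc.1 hc.2.1) hj1 hc.2.2 hwj]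
        exact hz
    by_cases hw2 : w2 ∈ tr j
    · exact stepMai hp H IH hρ hP hv hatt hhv hL hw hF hp1 hj hwj hw2 hNR
    · exact stepMaii hp H IH hρ hP hv hatt hhv hL hF hp1 hj hwj hw2 hNR

open Classical in
theorem stepM (hp : MG p) (H : Hyp G U (k + 1) tr h F)
    (IH : Res p (U.card + (k + 1))) (hρ : ρ < k) (hP : ∀ z ∈ tr k, h z = ρ)
    (hv : v ∈ U) (hatt : ∀ i < k + 1, v ∉ tr i) (hhv : h v = k)
    (hL : ∀ u ∈ U, u ∉ tr 0 → h u = k → u = v)
    (hall : ∀ u ∈ U, (∀ i < k + 1, u ∉ tr i) → 1 < (F.filter (u ∈ ·)).card)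
    (hw : w1 ≠ w2) (hF : F = {s(v, w1), s(v, w2), s(p1, u)}) (hp1 : p1 ∈ tr k) : ri p G U := by
  by_cases hN1 : NR U tr h ρ w1
  · exact stepM1 hp H IH hρ hP hv hatt hhv hL hall hw hF hp1 hN1
  by_cases hN2 : NR U tr h ρ w2
  · refine stepM1 hp H IH hρ hP hv hatt hhv hL hall hw.symm ?_ hp1 hN2 (u := u)
    rw [hF]
    ext e
    simp only [mem_insert, mem_singleton]
    tauto
  · exact stepM0 hp H IH hρ hP hv hatt hhv hw hF hp1 hN1 hN2

end M

end Pool.Agent.TH409.RG
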