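import Pool.Agent.TH409.RG.Defs

/-!
# Identification of vertices, the case of one triple
-/

set_option autoImplicit false

open Finset

namespace Pool.Agent.TH409.RG

open Pool.Agent.H789R5 Pool.Agent.H283R2.DR Pool.Agent.TH349.Rig

variable {V : Type}

/-- `G` where `y` receives the neighbours of `v` -/
def mg (G : SimpleGraph V) (v y : V) : SimpleGraph V where
  Adj a b := a ≠ b ∧ (G.Adj a b ∨ (a = y ∧ G.Adj v b) ∨ (b = y ∧ G.Adj v a))
  symm := ⟨fun a b h => ⟨h.1.symm, by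
    rcases h.2 with h | h | h
    · exact Or.inl h.symm
    · exact Or.inr (Or.inr h)
    · exact Or.inr (Or.inl h)⟩⟩
  loopless := ⟨fun _ h => h.1 rfl⟩

theorem le_mg (G : SimpleGraph V) (v y : V) : G ≤ mg G v y :=
  fun _ _ h => ⟨h.ne, Or.inl h⟩

theorem mg_adj {G : SimpleGraph V} {v y w : V} (h : G.Adj v w) (hy : y ≠ w) : (mg G v y).Adj y w :=
  ⟨hy, Or.inr (Or.inl ⟨rfl, h⟩)⟩

open Classical in
theorem F_two {F : Finset (Sym2 V)} (hF : F.card = 3) {v : V}
    (hv : 1 < (F.filter (v ∈ ·)).card) : ∃ w1 w2 e3, w1 ≠ w2 ∧ F = {s(v, w1), s(v, w2), e3} ∧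
      e3 ≠ s(v, w1) ∧ e3 ≠ s(v, w2) := by
  obtain ⟨e1, he1, e2, he2, hne⟩ := one_lt_card.1 hv
  rw [mem_filter] at he1 he2
  obtain ⟨w1, rfl⟩ := Sym2.mem_iff_exists.1 he1.2
  obtain ⟨w2, rfl⟩ := Sym2.mem_iff_exists.1 he2.2
  have h1 : ((F.erase s(v, w1)).erase s(v, w2)).card = 1 := by
    rw [card_erase_of_mem (mem_erase.2 ⟨hne.symm, he2.1⟩), card_erase_of_mem he1.1, hF]
  obtain ⟨e3, he3⟩ := card_eq_one.1 h1
  have h3 : e3 ∈ (F.erase s(v, w1)).erase s(v, w2) := by rw [he3]; exact mem_singleton_self _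
  rw [mem_erase, mem_erase] at h3
  refine ⟨w1, w2, e3, fun h => hne (by rw [h]), ?_, h3.2.1, h3.1⟩
  rw [← insert_erase he1.1, ← insert_erase (mem_erase.2 ⟨hne.symm, he2.1⟩), he3]

open Classical in
theorem F_other {F : Finset (Sym2 V)} {v w1 w2 u : V} {e3 : Sym2 V}
    (hF : F = {s(v, w1), s(v, w2), e3}) (hw : w1 ≠ w2) (huv : u ≠ v)
    (hu : 1 < (F.filter (u ∈ ·)).card) : u ∈ e3 ∧ (u = w1 ∨ u = w2) := by
  obtain ⟨e, he, e', he', hne⟩ := one_lt_card.1 hu
  rw [mem_filter, hF, mem_insert, mem_insert, mem_singleton] at he he'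
  have h1 : ∀ w, u ∈ s(v, w) → u = w := by
    intro w h
    rw [Sym2.mem_iff] at h
    exact h.resolve_left huv
  rcases he with ⟨rfl | rfl | rfl, hue⟩ <;> rcases he' with ⟨rfl | rfl | rfl, hue'⟩
  · exact absurd rfl hne
  · exact absurd ((h1 _ hue).symm.trans (h1 _ hue')) hw
  · exact ⟨hue', Or.inl (h1 _ hue)⟩
  · exact absurd ((h1 _ hue').symm.trans (h1 _ hue)) hw
  · exact absurd rfl hne
  · exact ⟨hue', Or.inr (h1 _ hue)⟩
  · exact ⟨hue, Or.inl (h1 _ hue')⟩
  · exact ⟨hue, Or.inr (h1 _ hue')⟩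
  · exact absurd rfl hne

variable [Fintype V]

open Classical in
/-- identification of a vertex `v` outside the triples with `y` -/
theorem stepMerge {p : V → Fin 3 → ℝ} (hp : MG p) {G : SimpleGraph V} {U : Finset V} {k : ℕ}
    {tr : ℕ → Finset V} {h : V → ℕ} {F : Finset (Sym2 V)} (H : Hyp G U k tr h F)
    (IH : Res p (U.card + k)) {v y : V} (hv : v ∈ U) (hatt : ∀ i < k, v ∉ tr i) (hy : y ∈ U)
    (hyv : y ≠ v) (hadj : ∀ z ∈ tr (h v), G.Adj y z) (F' : Finset (Sym2 V)) (hF' : F'.card = 3)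
    (hFE : ∀ a b, s(a, b) ∈ F' → a ∈ U.erase v ∧ b ∈ U.erase v ∧ (mg G v y).Adj a b ∧
      ¬ TA U tr h a b) : ri p G U := by
  have h0 : v ∉ tr 0 := hatt 0 H.ts.pos
  have hlt := H.ts.hlt v hv h0
  have hTS := H.ts.erase hatt
  have key : ri p (mg G v y) (U.erase v) := by
    refine IH _ _ _ _ _ F' ⟨hTS, ?_, hF', ?_⟩ (by have := card_erase_lt_of_mem hv; omega)
    · intro x y hxy
      exact le_mg _ _ _ (H.adj x y ⟨mem_of_mem_erase hxy.1, hxy.2⟩)
    · intro a b hab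
      obtain ⟨h1, h2, h3, h4⟩ := hFE a b hab
      exact ⟨h1, h2, h3, fun hc => h4 ⟨mem_of_mem_erase hc.1, hc.2⟩⟩
  have h3 := ri_fold hp (G := G) (notMem_erase v U) (mem_erase.2 ⟨hyv, hy⟩) (hTS.sub _ hlt)
    (hTS.card _ hlt) (fun z hz => H.adj v z ⟨hv, h0, hz⟩) hadj
    (G' := mg G v y) (fun a _ b _ hab => hab.2) key
  rwa [insert_erase hv] at h3

open Classical in
/-- only the root triple -/
theorem stepOne {p : V → Fin 3 → ℝ} (hp : MG p) {G : SimpleGraph V} {U : Finset V}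
    {tr : ℕ → Finset V} {h : V → ℕ} {F : Finset (Sym2 V)} (H : Hyp G U 1 tr h F)
    (hall : ∀ u ∈ U, (∀ i < 1, u ∉ tr i) → 1 < (F.filter (u ∈ ·)).card) : ri p G U := by
  have hT0 : tr 0 ⊆ U := H.ts.sub 0 one_pos
  by_cases hU : ∃ u ∈ U, u ∉ tr 0
  · obtain ⟨u, hu, hu0⟩ := hU
    have hatt : ∀ x, x ∉ tr 0 → ∀ i < 1, x ∉ tr i := by
      intro x hx i hi
      obtain rfl : i = 0 := by omega
      exact hx
    have hh : ∀ x ∈ U, x ∉ tr 0 → h x = 0 := fun x hx hx0 => by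
      have := H.ts.hlt x hx hx0
      omega
    obtain ⟨a, b, e3, hab, hF, -, -⟩ := F_two H.F3 (hall u hu (hatt u hu0))
    have hnb : ∀ w, s(u, w) ∈ F → w ∈ U ∧ w ∉ tr 0 ∧ G.Adj u w := by
      intro w hw
      obtain ⟨_, h2, h3, h4⟩ := H.FE u w hw
      refine ⟨h2, fun hc => h4 ⟨hu, hu0, ?_⟩, h3⟩
      rwa [hh u hu hu0]
    have ha := hnb a (by rw [hF]; simp)
    have hb := hnb b (by rw [hF]; simp)
    have ha3 := (F_other hF hab ha.2.2.ne' (hall a ha.1 (hatt a ha.2.1))).1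
    have hb3 := (F_other hF hab hb.2.2.ne' (hall b hb.1 (hatt b hb.2.1))).1
    have he3 : e3 = s(a, b) := (Sym2.mem_and_mem_iff hab).1 ⟨ha3, hb3⟩
    have hab' : G.Adj a b := (H.FE a b (by rw [hF, he3]; simp)).2.2.1
    have h1 := ri_tri hp ha.2.2 hb.2.2 hab'
    have hadj0 : ∀ x ∈ U, x ∉ tr 0 → ∀ z ∈ tr 0, G.Adj z x := by
      intro x hx hx0 z hz
      refine (H.adj x z ⟨hx, hx0, ?_⟩).symm
      rwa [hh x hx hx0]
    have h2 := ri_addall hp (Subset.refl ({b, a, u} : Finset V)) (by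
      rw [card_eq_three.2 ⟨b, a, u, hab.symm, hb.2.2.ne', ha.2.2.ne', rfl⟩]) (tr 0) (by
        intro z hz _ x hx
        simp only [mem_insert, mem_singleton] at hx
        rcases hx with rfl | rfl | rfl
        · exact hadj0 _ hb.1 hb.2.1 z hz
        · exact hadj0 _ ha.1 ha.2.1 z hz
        · exact hadj0 _ hu hu0 z hz) h1
    refine ext_all hp H.ts H.adj one_pos ?_ subset_union_left h2
    refine union_subset hT0 ?_
    intro x hx
    simp only [mem_insert, mem_singleton] at hx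
    rcases hx with rfl | rfl | rfl
    · exact hb.1
    · exact ha.1
    · exact hu
  · push Not at hU
    have hU0 : U = tr 0 := Subset.antisymm hU hT0
    obtain ⟨a, b, c, hab, hac, hbc, hT⟩ := card_eq_three.1 (H.ts.card 0 one_pos)
    have h3 : ({s(a, b), s(a, c), s(b, c)} : Finset (Sym2 V)).card = 3 := by
      rw [card_eq_three]
      refine ⟨s(a, b), s(a, c), s(b, c), ?_, ?_, ?_, rfl⟩
      · rw [Ne, Sym2.eq_iff]
        rintro (⟨_, h⟩ | ⟨h, _⟩)
        · exact hbc h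
        · exact hac h
      · rw [Ne, Sym2.eq_iff]
        rintro (⟨h, _⟩ | ⟨h, _⟩)
        · exact hab h
        · exact hac h
      · rw [Ne, Sym2.eq_iff]
        rintro (⟨h, _⟩ | ⟨h, _⟩)
        · exact hab h
        · exact hac h
    have hsub : F ⊆ {s(a, b), s(a, c), s(b, c)} := by
      intro e he
      induction e using Sym2.ind with
      | _ x y =>
        obtain ⟨h1, h2, h4, _⟩ := H.FE x y he
        rw [hU0, hT] at h1 h2
        have hne := h4.ne
        simp only [mem_insert, mem_singleton] at h1 h2 ⊢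
        rcases h1 with rfl | rfl | rfl <;> rcases h2 with rfl | rfl | rfl
        · exact absurd rfl hne
        · exact Or.inl rfl
        · exact Or.inr (Or.inl rfl)
        · exact Or.inl Sym2.eq_swap
        · exact absurd rfl hne
        · exact Or.inr (Or.inr rfl)
        · exact Or.inr (Or.inl Sym2.eq_swap)
        · exact Or.inr (Or.inr Sym2.eq_swap)
        · exact absurd rfl hne
    have hF := eq_of_subset_of_card_le hsub (by rw [h3, H.F3])
    have h1 := (H.FE a b (by rw [hF]; simp)).2.2.1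
    have h2 := (H.FE a c (by rw [hF]; simp)).2.2.1
    have h4 := (H.FE b c (by rw [hF]; simp)).2.2.1
    have h5 := ri_tri hp h1 h2 h4
    have h6 : ({c, b, a} : Finset V) = U := by
      rw [hU0, hT]
      ext x
      simp only [mem_insert, mem_singleton]
      tauto
    rwa [h6] at h5

end Pool.Agent.TH409.RG
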