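import Pool.Agent.TH409.RG.Steps

/-!
# Two vertices at the last triple
-/

set_option autoImplicit false

open Finset

namespace Pool.Agent.TH409.RG

open Pool.Agent.H789R5 Pool.Agent.H283R2.DR Pool.Agent.TH349.Rig

variable {V : Type}

/-- `x` is joined to the triple `tr ρ` in the tree -/
def NR (U : Finset V) (tr : ℕ → Finset V) (h : V → ℕ) (ρ : ℕ) (x : V) : Prop :=
  ∃ r ∈ tr ρ, TA U tr h x r ∨ TA U tr h r x

section NR

variable {G : SimpleGraph V} {U : Finset V} {k ρ : ℕ} {tr : ℕ → Finset V} {h : V → ℕ}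
  {F : Finset (Sym2 V)}

theorem TS.idx (H : TS U k tr h) {i j : ℕ} (hi : i < k) (hj : j < k) {x : V} (hx : x ∈ tr i)
    (hx' : x ∈ tr j) : i = j := by
  by_contra hij
  exact H.disj i hi j hj hij x hx hx'

theorem TS.NR_all (H : TS U k tr h) (hρ : ρ < k) {x : V} (hx : NR U tr h ρ x) {r : V}
    (hr : r ∈ tr ρ) : TA U tr h x r ∨ TA U tr h r x := by
  obtain ⟨r0, hr0, ⟨h1, h2, h3⟩ | ⟨h1, h2, h3⟩⟩ := hx
  · left
    refine ⟨h1, h2, ?_⟩
    have := H.idx (H.hlt x h1 h2) hρ h3 hr0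
    rwa [this]
  · right
    have hρ0 : 0 < ρ := by
      rcases Nat.eq_zero_or_pos ρ with rfl | h
      · exact absurd hr0 h2
      · exact h
    refine ⟨H.sub ρ hρ hr, H.disj ρ hρ 0 H.pos hρ0.ne' r hr, ?_⟩
    rwa [H.same ρ hρ hρ0 r hr r0 hr0]

theorem TS.NR_mem (H : TS U k tr h) {x : V} (hx : NR U tr h ρ x) : x ∈ U := by
  obtain ⟨r, hr, h1 | h1⟩ := hx
  · exact h1.1
  · exact H.sub _ (H.hlt r h1.1 h1.2.1) h1.2.2

theorem TS.NR_notMem (H : TS U k tr h) (hρ : ρ < k) {x : V} (hx : NR U tr h ρ x) :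
    x ∉ tr ρ := by
  intro hc
  obtain ⟨r, hr, h1 | h1⟩ := hx
  · exact H.noTA hρ hc hr h1
  · exact H.noTA hρ hr hc h1

theorem Hyp.NR_adj (H : Hyp G U k tr h F) (hρ : ρ < k) {x : V} (hx : NR U tr h ρ x) {r : V}
    (hr : r ∈ tr ρ) : G.Adj x r := by
  rcases H.ts.NR_all hρ hx hr with h1 | h1
  · exact H.adj _ _ h1
  · exact (H.adj _ _ h1).symm

end NR

open Classical in
/-- checking the conditions on three edges -/
theorem FE3 {G' : SimpleGraph V} {U U' : Finset V} {tr : ℕ → Finset V} {h : V → ℕ}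
    {a1 b1 a2 b2 a3 b3 : V}
    (h1 : a1 ∈ U' ∧ b1 ∈ U' ∧ G'.Adj a1 b1 ∧ ¬ TA U tr h a1 b1 ∧ ¬ TA U tr h b1 a1)
    (h2 : a2 ∈ U' ∧ b2 ∈ U' ∧ G'.Adj a2 b2 ∧ ¬ TA U tr h a2 b2 ∧ ¬ TA U tr h b2 a2)
    (h3 : a3 ∈ U' ∧ b3 ∈ U' ∧ G'.Adj a3 b3 ∧ ¬ TA U tr h a3 b3 ∧ ¬ TA U tr h b3 a3) :
    ∀ a b, s(a, b) ∈ ({s(a1, b1), s(a2, b2), s(a3, b3)} : Finset (Sym2 V)) →
      a ∈ U' ∧ b ∈ U' ∧ G'.Adj a b ∧ ¬ TA U tr h a b := by
  intro a b hab
  simp only [mem_insert, mem_singleton, Sym2.eq_iff] at hab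
  rcases hab with (⟨rfl, rfl⟩ | ⟨rfl, rfl⟩) | (⟨rfl, rfl⟩ | ⟨rfl, rfl⟩) | (⟨rfl, rfl⟩ | ⟨rfl, rfl⟩)
  · exact ⟨h1.1, h1.2.1, h1.2.2.1, h1.2.2.2.1⟩
  · exact ⟨h1.2.1, h1.1, h1.2.2.1.symm, h1.2.2.2.2⟩
  · exact ⟨h2.1, h2.2.1, h2.2.2.1, h2.2.2.2.1⟩
  · exact ⟨h2.2.1, h2.1, h2.2.2.1.symm, h2.2.2.2.2⟩
  · exact ⟨h3.1, h3.2.1, h3.2.2.1, h3.2.2.2.1⟩
  · exact ⟨h3.2.1, h3.1, h3.2.2.1.symm, h3.2.2.2.2⟩

/-- the conditions for an edge of `F` -/
theorem Hyp.two {G : SimpleGraph V} {U : Finset V} {k : ℕ} {tr : ℕ → Finset V} {h : V → ℕ}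
    {F : Finset (Sym2 V)} (H : Hyp G U k tr h F) {a b : V} (hab : s(a, b) ∈ F) :
    a ∈ U ∧ b ∈ U ∧ G.Adj a b ∧ ¬ TA U tr h a b ∧ ¬ TA U tr h b a := by
  have h1 := H.FE a b hab
  have h2 := H.FE b a (by rwa [show s(b, a) = s(a, b) from Sym2.eq_swap])
  exact ⟨h1.1, h1.2.1, h1.2.2.1, h1.2.2.2, h2.2.2.2⟩

open Classical in
theorem card_three {e1 e2 e3 : Sym2 V} (h12 : e1 ≠ e2) (h13 : e1 ≠ e3) (h23 : e2 ≠ e3) :
    ({e1, e2, e3} : Finset (Sym2 V)).card = 3 :=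
  card_eq_three.2 ⟨e1, e2, e3, h12, h13, h23, rfl⟩

theorem s_ne_left {v a b : V} (h : a ≠ b) : s(v, a) ≠ s(v, b) := by
  intro hc
  rw [Sym2.eq_iff] at hc
  rcases hc with ⟨_, h1⟩ | ⟨h1, h2⟩
  · exact h h1
  · exact h (h2.trans h1)

theorem s_ne {a b c d : V} (h1 : a ≠ c ∨ b ≠ d) (h2 : a ≠ d ∨ b ≠ c) : s(a, b) ≠ s(c, d) := by
  intro hc
  rw [Sym2.eq_iff] at hc
  tauto

open Classical in
theorem exists_third {R : Finset V} (hR : R.card = 3) (x y : V) : ∃ r ∈ R, r ≠ x ∧ r ≠ y := by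
  by_contra hcon
  push Not at hcon
  have h1 : R ⊆ {x, y} := by
    intro r hr
    rw [mem_insert, mem_singleton]
    by_cases h : r = x
    · exact Or.inl h
    · exact Or.inr (hcon r hr h)
  have h2 := card_le_card h1
  have h3 := card_le_two (a := x) (b := y)
  omega

variable [Fintype V]

open Classical in
theorem stepTwoA {p : V → Fin 3 → ℝ} (hp : MG p) {G : SimpleGraph V} {U : Finset V} {k ρ : ℕ}
    {tr : ℕ → Finset V} {h : V → ℕ} {F : Finset (Sym2 V)} (H : Hyp G U (k + 1) tr h F)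
    (IH : Res p (U.card + (k + 1))) (hρ : ρ < k) (hP : ∀ z ∈ tr k, h z = ρ)
    {v v' x y : V} (hv : v ∈ U) (hatt : ∀ i < k + 1, v ∉ tr i) (hhv : h v = k)
    (hatt' : ∀ i < k + 1, v' ∉ tr i) (hhv' : h v' = k) (hvv : v ≠ v')
    (hF : F = {s(v, v'), s(v, x), s(v', y)}) (hx : x ≠ v') (hy : y ≠ v)
    (hNx : ¬ NR U tr h ρ x) : ri p G U := by
  have hρ' : ρ < k + 1 := by omega
  obtain ⟨r, hr, hrx, hry⟩ := exists_third (H.ts.card ρ hρ') x y
  have h1 := H.two (a := v) (b := v') (by rw [hF]; simp)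
  have h2 := H.two (a := v) (b := x) (by rw [hF]; simp)
  have h3 := H.two (a := v') (b := y) (by rw [hF]; simp)
  have hrv : r ≠ v := fun hc => hatt ρ hρ' (hc ▸ hr)
  have hrv' : r ≠ v' := fun hc => hatt' ρ hρ' (hc ▸ hr)
  have hrU : r ∈ U := H.ts.sub ρ hρ' hr
  have hr0 : ∀ z ∈ tr k, z ∉ tr 0 := fun z hz => H.ts.disj k (by omega) 0 (by omega) (by omega) z hz
  have hrnot : ∀ w, (∀ i < k + 1, w ∉ tr i) → h w = k → ¬ TA U tr h r w ∧ ¬ TA U tr h w r := by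
    intro w hw hwk
    constructor
    · rintro ⟨_, h0, h4⟩
      exact hw _ (H.ts.hlt r hrU h0) h4
    · rintro ⟨_, _, h4⟩
      rw [hwk] at h4
      exact H.ts.disj ρ hρ' k (by omega) (by omega) r hr h4
  refine stepMerge hp H IH hv hatt hrU hrv ?_ {s(r, v'), s(r, x), s(v', y)} ?_ (FE3 ?_ ?_ ?_)
  · intro z hz
    rw [hhv] at hz
    refine (H.adj z r ⟨H.ts.sub k (by omega) hz, hr0 z hz, ?_⟩).symm
    rwa [hP z hz]
  · refine card_three (s_ne_left hx.symm) (s_ne (Or.inl hrv') (Or.inl hry))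
      (s_ne (Or.inl hrv') (Or.inl hry))
  · exact ⟨mem_erase.2 ⟨hrv, hrU⟩, mem_erase.2 ⟨hvv.symm, h1.2.1⟩, mg_adj h1.2.2.1 hrv',
      hrnot v' hatt' hhv'⟩
  · refine ⟨mem_erase.2 ⟨hrv, hrU⟩, mem_erase.2 ⟨h2.2.2.1.ne', h2.2.1⟩, mg_adj h2.2.2.1 hrx,
      fun hc => hNx ⟨r, hr, Or.inr hc⟩, fun hc => hNx ⟨r, hr, Or.inl hc⟩⟩
  · exact ⟨mem_erase.2 ⟨hvv.symm, h3.1⟩, mem_erase.2 ⟨hy, h3.2.1⟩, le_mg _ _ _ h3.2.2.1, h3.2.2.2⟩

open Classical in
theorem stepTwo {p : V → Fin 3 → ℝ} (hp : MG p) {G : SimpleGraph V} {U : Finset V} {k ρ : ℕ}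
    {tr : ℕ → Finset V} {h : V → ℕ} {F : Finset (Sym2 V)} (H : Hyp G U (k + 1) tr h F)
    (IH : Res p (U.card + (k + 1))) (hρ : ρ < k) (hP : ∀ z ∈ tr k, h z = ρ)
    {v v' x y : V} (hv : v ∈ U) (hatt : ∀ i < k + 1, v ∉ tr i) (hhv : h v = k)
    (hv' : v' ∈ U) (hatt' : ∀ i < k + 1, v' ∉ tr i) (hhv' : h v' = k) (hvv : v ≠ v')
    (hF : F = {s(v, v'), s(v, x), s(v', y)}) (hx : x ≠ v') (hy : y ≠ v) : ri p G U := by
  by_cases hNx : NR U tr h ρ x
  swap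
  · exact stepTwoA hp H IH hρ hP hv hatt hhv hatt' hhv' hvv hF hx hy hNx
  by_cases hNy : NR U tr h ρ y
  swap
  · refine stepTwoA hp H IH hρ hP hv' hatt' hhv' hatt hhv hvv.symm (x := y) (y := x) ?_ hy hx hNy
    rw [hF, show s(v', v) = s(v, v') from Sym2.eq_swap]
    ext e
    simp only [mem_insert, mem_singleton]
    tauto
  have hρ' : ρ < k + 1 := by omega
  have hk1 : k < k + 1 := by omega
  have h1 := H.two (a := v) (b := v') (by rw [hF]; simp)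
  have h2 := H.two (a := v) (b := x) (by rw [hF]; simp)
  have h3 := H.two (a := v') (b := y) (by rw [hF]; simp)
  have hz0 : ∀ z ∈ tr k, z ∉ tr 0 := fun z hz => H.ts.disj k hk1 0 (by omega) (by omega) z hz
  have hxP : x ∉ tr k := fun hc => h2.2.2.2.1 ⟨hv, hatt 0 (by omega), by rwa [hhv]⟩
  have hyP : y ∉ tr k := fun hc => h3.2.2.2.1 ⟨hv', hatt' 0 (by omega), by rwa [hhv']⟩
  have hxR := H.ts.NR_notMem hρ' hNx
  have hyR := H.ts.NR_notMem hρ' hNy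
  have hPv : ∀ z ∈ tr k, G.Adj z v := fun z hz =>
    (H.adj v z ⟨hv, hatt 0 (by omega), by rwa [hhv]⟩).symm
  have hPv' : ∀ z ∈ tr k, G.Adj z v' := fun z hz =>
    (H.adj v' z ⟨hv', hatt' 0 (by omega), by rwa [hhv']⟩).symm
  have hPR : ∀ z ∈ tr k, ∀ r ∈ tr ρ, G.Adj z r := fun z hz r hr =>
    H.adj z r ⟨H.ts.sub k hk1 hz, hz0 z hz, by rwa [hP z hz]⟩
  have hvR : v ∉ tr ρ := hatt ρ hρ'
  have hvR' : v' ∉ tr ρ := hatt' ρ hρ'
  -- the join
  have hjoin : ∀ G1 : SimpleGraph V, G ≤ G1 → G1.Adj x v' →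
      ri p G1 (insert x (tr k) ∪ insert v (insert v' (tr ρ))) := by
    intro G1 hG1 hxv'
    have cA : (insert x (tr k)).card = 4 := by rw [card_insert_of_notMem hxP, H.ts.card k hk1]
    have cB : (insert v (insert v' (tr ρ))).card = 5 := by
      rw [card_insert_of_notMem, card_insert_of_notMem hvR', H.ts.card ρ hρ']
      rw [mem_insert]
      rintro (hc | hc)
      · exact hvv hc
      · exact hvR hc
    refine join_rigid hp ⟨?_, ?_⟩ (by omega) (by omega) ?_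
    · rw [disjoint_left]
      intro a ha hb
      rw [mem_insert] at ha
      rw [mem_insert, mem_insert] at hb
      rcases ha with rfl | ha
      · rcases hb with hb | hb | hb
        · exact h2.2.2.1.ne hb.symm
        · exact hx hb
        · exact hxR hb
      · rcases hb with rfl | rfl | hb
        · exact hatt k hk1 ha
        · exact hatt' k hk1 ha
        · exact H.ts.disj k hk1 ρ hρ' (by omega) a ha hb
    · intro a ha b hb
      rw [mem_insert] at ha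
      rw [mem_insert, mem_insert] at hb
      rcases ha with rfl | ha
      · rcases hb with rfl | rfl | hb
        · exact (hG1 h2.2.2.1).symm
        · exact hxv'
        · exact hG1 (H.NR_adj hρ' hNx hb)
      · rcases hb with rfl | rfl | hb
        · exact hG1 (hPv a ha)
        · exact hG1 (hPv' a ha)
        · exact hG1 (hPR a ha b hb)
    · have h4 : 0 < (E2 G1 (insert v (insert v' (tr ρ)))).card := by
        rw [card_pos]
        refine ⟨s(v, v'), mem_E2.2 ⟨by simp, by simp, hG1 h1.2.2.1⟩⟩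
      rw [cA, cB]
      omega
  have hsub : insert x (tr k) ∪ insert v (insert v' (tr ρ)) ⊆ U := by
    intro a ha
    simp only [mem_union, mem_insert] at ha
    rcases ha with (rfl | ha) | (rfl | rfl | ha)
    · exact h2.2.1
    · exact H.ts.sub k hk1 ha
    · exact hv
    · exact hv'
    · exact H.ts.sub ρ hρ' ha
  have hRsub : tr ρ ⊆ insert x (tr k) ∪ insert v (insert v' (tr ρ)) := by
    intro a ha
    simp [ha]
  by_cases hxy : x = y
  · subst hxy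
    exact ext_all hp H.ts H.adj hρ' hsub hRsub (hjoin G le_rfl h3.2.2.1.symm)
  · have h4 := hjoin (mg G y x) (le_mg _ _ _) (mg_adj h3.2.2.1.symm hx)
    have h5 := ri_fold hp (G := G) (G' := mg G y x) (v := y) (y := x) (T := tr ρ) ?_ ?_ hRsub
      (H.ts.card ρ hρ') (fun z hz => H.NR_adj hρ' hNy hz) (fun z hz => H.NR_adj hρ' hNx hz)
      (fun a _ b _ hab => hab.2) h4
    · refine ext_all hp H.ts H.adj hρ' ?_ (hRsub.trans (subset_insert _ _)) h5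
      intro a ha
      rw [mem_insert] at ha
      rcases ha with rfl | ha
      · exact h3.2.1
      · exact hsub ha
    · simp only [mem_union, mem_insert]
      rintro ((hc | hc) | (hc | hc | hc))
      · exact hxy hc.symm
      · exact hyP hc
      · exact hy hc
      · exact h3.2.2.1.ne hc.symm
      · exact hyR hc
    · simp

end Pool.Agent.TH409.RG
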